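import Pool.Agent.Lib.MP_6b2d39_agUx.DefX

set_option autoImplicit false

namespace Pool.Agent.Lib.MP_6b2d39_agUx

private theorem rpw (N : ℕ) (a : ℝ) (k : ℕ) (h : a = 1 / 24 * (k : ℝ)) :
    (N : ℝ) ^ a = ((N : ℝ) ^ (1 / 24 : ℝ)) ^ k := by
  rw [h, Real.rpow_mul (Nat.cast_nonneg N), Real.rpow_natCast]

/-- UX10 (numbers, `u = N ^ (1/6)`, `N` large for the given `B`). `pA ≤ u / (10^9 B^2)`, `pt1 ≥ u^(7/2)`,
`u^(9/4) ≤ pm1 ≤ 2 u^(9/4)`, `pm0 ≥ u^(7/4) / 2`, `pt2 ≥ u^4 / B`, `pM ≤ 9 u^(5/2)`. -/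
theorem par_x (B : ℕ) (hB : 1 ≤ B) : ∃ N0 : ℕ, ∀ N : ℕ, N0 ≤ N →
    4 ≤ pA B N ∧ pA B N ≤ pM N ∧ 8 * 10 ^ 6 * pA B N * N ≤ pt1 N ^ 2 ∧
      8 * 10 ^ 6 * pm1 N ^ 2 * pA B N * N ≤ pm0 N ^ 2 * pt2 B N ^ 2 ∧
      8 * 10 ^ 6 * pM N ^ 2 * pA B N ≤ N := by
  refine ⟨(5 * 10 ^ 9 * B ^ 2) ^ 6, fun N hN => ?_⟩
  have hBR : (1 : ℝ) ≤ B := by exact_mod_cast hB
  have hB2 : (1 : ℝ) ≤ (B : ℝ) ^ 2 := one_le_pow₀ hBR
  obtain ⟨w, hwdef⟩ : ∃ w : ℝ, w = (N : ℝ) ^ (1 / 24 : ℝ) := ⟨_, rfl⟩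
  have hw0 : 0 ≤ w := by rw [hwdef]; exact Real.rpow_nonneg (Nat.cast_nonneg N) _
  have hwN : w ^ 24 = (N : ℝ) := by
    rw [hwdef, ← rpw N 1 24 (by norm_num), Real.rpow_one]
  have hA : (pA B N : ℝ) ≤ w ^ 4 / (10 ^ 9 * (B : ℝ) ^ 2) := by
    unfold pA
    rw [rpw N (1 / 6) 4 (by norm_num), ← hwdef]
    exact Nat.floor_le (by positivity)
  have hNR : (5 * 10 ^ 9 * (B : ℝ) ^ 2) ^ 6 ≤ (N : ℝ) := by exact_mod_cast hN
  have hw4 : 5 * 10 ^ 9 * (B : ℝ) ^ 2 ≤ w ^ 4 := by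
    rw [← hwN] at hNR
    have h1 : (5 * 10 ^ 9 * (B : ℝ) ^ 2) ^ 6 ≤ (w ^ 4) ^ 6 := by
      calc (5 * 10 ^ 9 * (B : ℝ) ^ 2) ^ 6 ≤ w ^ 24 := hNR
        _ = (w ^ 4) ^ 6 := by ring
    exact le_of_pow_le_pow_left₀ (by norm_num) (by positivity) h1
  have hw2 : 2 ≤ w := by
    have h1 : (2 : ℝ) ^ 4 ≤ w ^ 4 := by
      have : (2 : ℝ) ^ 4 ≤ 5 * 10 ^ 9 * (B : ℝ) ^ 2 := by nlinarith
      exact this.trans hw4
    exact le_of_pow_le_pow_left₀ (by norm_num) hw0 h1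
  have hw1 : 1 ≤ w := by linarith
  have h4A : 4 ≤ pA B N := by
    unfold pA
    rw [rpw N (1 / 6) 4 (by norm_num), ← hwdef]
    apply Nat.le_floor
    rw [le_div_iff₀ (by positivity)]
    push_cast
    nlinarith
  have hM1 : (8 * w ^ 10 : ℝ) ≤ pM N := by
    unfold pM
    rw [rpw N (5 / 12) 10 (by norm_num), ← hwdef]
    exact Nat.le_ceil _
  have hM2 : (pM N : ℝ) ≤ 9 * w ^ 10 := by
    have h1 : (pM N : ℝ) < 8 * w ^ 10 + 1 := by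
      unfold pM
      rw [rpw N (5 / 12) 10 (by norm_num), ← hwdef]
      exact Nat.ceil_lt_add_one (by positivity)
    have h2 : 1 ≤ w ^ 10 := one_le_pow₀ hw1
    linarith
  have ht1 : (w ^ 14 : ℝ) ≤ pt1 N := by
    unfold pt1
    rw [rpw N (7 / 12) 14 (by norm_num), ← hwdef]
    exact Nat.le_ceil _
  have ht2 : (w ^ 16 / B : ℝ) ≤ pt2 B N := by
    unfold pt2
    rw [rpw N (2 / 3) 16 (by norm_num), ← hwdef]
    exact Nat.le_ceil _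
  have hm1 : (pm1 N : ℝ) ≤ 2 * w ^ 9 := by
    have h1 : (pm1 N : ℝ) < w ^ 9 + 1 := by
      unfold pm1
      rw [rpw N (3 / 8) 9 (by norm_num), ← hwdef]
      exact Nat.ceil_lt_add_one (by positivity)
    have h2 : 1 ≤ w ^ 9 := one_le_pow₀ hw1
    linarith
  have hm0 : (w ^ 7 / 2 : ℝ) ≤ pm0 N := by
    have h1 : (w ^ 7 : ℝ) < pm0 N + 1 := by
      unfold pm0
      rw [rpw N (7 / 24) 7 (by norm_num), ← hwdef]
      exact Nat.lt_floor_add_one _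
    have h2 : 2 ≤ w ^ 7 := by
      calc (2 : ℝ) ≤ w := hw2
        _ ≤ w ^ 7 := le_self_pow₀ hw1 (by norm_num)
    linarith
  have hA0 : (0 : ℝ) ≤ pA B N := Nat.cast_nonneg _
  have hAN : (pA B N : ℝ) * N ≤ w ^ 28 / (10 ^ 9 * (B : ℝ) ^ 2) := by
    rw [← hwN]
    calc (pA B N : ℝ) * w ^ 24 ≤ w ^ 4 / (10 ^ 9 * (B : ℝ) ^ 2) * w ^ 24 :=
          mul_le_mul_of_nonneg_right hA (by positivity)
      _ = w ^ 28 / (10 ^ 9 * (B : ℝ) ^ 2) := by ring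
  have hAw : (pA B N : ℝ) ≤ w ^ 4 / 10 ^ 9 := by
    refine hA.trans ?_
    apply div_le_div_of_nonneg_left (by positivity) (by positivity)
    nlinarith
  refine ⟨h4A, ?_, ?_, ?_, ?_⟩
  · have h1 : (pA B N : ℝ) ≤ pM N := by
      have h2 : w ^ 4 ≤ w ^ 10 := pow_le_pow_right₀ hw1 (by norm_num)
      have h3 : 0 ≤ w ^ 4 := by positivity
      linarith
    exact_mod_cast h1
  · have h1 : (8 * 10 ^ 6 * pA B N * N : ℝ) ≤ (pt1 N : ℝ) ^ 2 := by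
      have h2 : w ^ 28 ≤ (pt1 N : ℝ) ^ 2 := by
        calc w ^ 28 = (w ^ 14) ^ 2 := by ring
          _ ≤ (pt1 N : ℝ) ^ 2 := pow_le_pow_left₀ (by positivity) ht1 2
      have h3 : w ^ 28 / (10 ^ 9 * (B : ℝ) ^ 2) ≤ w ^ 28 / 10 ^ 9 := by
        apply div_le_div_of_nonneg_left (by positivity) (by positivity)
        nlinarith
      have h4 : 0 ≤ w ^ 28 := by positivity
      calc (8 * 10 ^ 6 * pA B N * N : ℝ) = 8 * 10 ^ 6 * ((pA B N : ℝ) * N) := by ring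
        _ ≤ 8 * 10 ^ 6 * (w ^ 28 / 10 ^ 9) := by
          apply mul_le_mul_of_nonneg_left (hAN.trans h3) (by norm_num)
        _ ≤ w ^ 28 := by linarith
        _ ≤ (pt1 N : ℝ) ^ 2 := h2
    exact_mod_cast h1
  · have h1 : (8 * 10 ^ 6 * (pm1 N : ℝ) ^ 2 * pA B N * N : ℝ) ≤
        (pm0 N : ℝ) ^ 2 * (pt2 B N : ℝ) ^ 2 := by
      have e1 : (pm1 N : ℝ) ^ 2 ≤ (2 * w ^ 9) ^ 2 :=
        pow_le_pow_left₀ (Nat.cast_nonneg _) hm1 2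
      have e2 : (w ^ 7 / 2 : ℝ) ^ 2 ≤ (pm0 N : ℝ) ^ 2 :=
        pow_le_pow_left₀ (by positivity) hm0 2
      have e3 : (w ^ 16 / B : ℝ) ^ 2 ≤ (pt2 B N : ℝ) ^ 2 :=
        pow_le_pow_left₀ (by positivity) ht2 2
      have hb0 : (0 : ℝ) < (B : ℝ) ^ 2 := by positivity
      calc (8 * 10 ^ 6 * (pm1 N : ℝ) ^ 2 * pA B N * N : ℝ)
            = 8 * 10 ^ 6 * ((pm1 N : ℝ) ^ 2 * ((pA B N : ℝ) * N)) := by ring
        _ ≤ 8 * 10 ^ 6 * ((2 * w ^ 9) ^ 2 * (w ^ 28 / (10 ^ 9 * (B : ℝ) ^ 2))) := by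
          apply mul_le_mul_of_nonneg_left _ (by norm_num)
          exact mul_le_mul e1 hAN (by positivity) (by positivity)
        _ = (32 / 1000) * (w ^ 46 / (B : ℝ) ^ 2) := by
          field_simp
          ring
        _ ≤ (1 / 4) * (w ^ 46 / (B : ℝ) ^ 2) := by
          apply mul_le_mul_of_nonneg_right (by norm_num) (by positivity)
        _ = (w ^ 7 / 2 : ℝ) ^ 2 * (w ^ 16 / B : ℝ) ^ 2 := by
          field_simp
          ring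
        _ ≤ (pm0 N : ℝ) ^ 2 * (pt2 B N : ℝ) ^ 2 := by
          exact mul_le_mul e2 e3 (by positivity) (by positivity)
    exact_mod_cast h1
  · have h1 : (8 * 10 ^ 6 * (pM N : ℝ) ^ 2 * pA B N : ℝ) ≤ N := by
      have e1 : (pM N : ℝ) ^ 2 ≤ (9 * w ^ 10) ^ 2 :=
        pow_le_pow_left₀ (Nat.cast_nonneg _) hM2 2
      rw [← hwN]
      have h4 : 0 ≤ w ^ 24 := by positivity
      calc (8 * 10 ^ 6 * (pM N : ℝ) ^ 2 * pA B N : ℝ)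
            = 8 * 10 ^ 6 * ((pM N : ℝ) ^ 2 * (pA B N : ℝ)) := by ring
        _ ≤ 8 * 10 ^ 6 * ((9 * w ^ 10) ^ 2 * (w ^ 4 / 10 ^ 9)) := by
          apply mul_le_mul_of_nonneg_left _ (by norm_num)
          exact mul_le_mul e1 hAw hA0 (by positivity)
        _ = (648 / 1000) * w ^ 24 := by ring
        _ ≤ w ^ 24 := by linarith
    exact_mod_cast h1

end Pool.Agent.Lib.MP_6b2d39_agUx
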