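import Pool.Agent.Lib.MP_6b2d39_agUx.HighX

set_option autoImplicit false

namespace Pool.Agent.Lib.MP_6b2d39_agUx

open Pool.Agent.Lib.MP_6b2d39_agUm

private theorem nh_pow {N : ℕ} {a : ℝ} {n : ℕ} (ha : a = n / 24) :
    (N : ℝ) ^ a = ((N : ℝ) ^ (1 / 24 : ℝ)) ^ n := by
  rw [← Real.rpow_natCast, ← Real.rpow_mul (Nat.cast_nonneg N), ha]
  congr 1
  ring

private theorem nh_real {w : ℝ} (hw : 4800 ≤ w) :
    Real.exp (96 * w ^ 7) * Real.exp (-((w ^ 8 / 12 - 1) / 2)) ≤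
      1 / 4 * Real.exp (-w ^ 4) := by
  have h1 : (4 : ℝ) ≤ Real.exp 2 := by
    have h := Real.add_one_le_exp (1 : ℝ)
    have h2 : Real.exp 2 = Real.exp 1 * Real.exp 1 := by
      rw [← Real.exp_add]; norm_num
    rw [h2]
    nlinarith
  have h2 : (1 / 4 : ℝ) ≥ Real.exp (-2) := by
    rw [Real.exp_neg]
    rw [ge_iff_le, inv_le_comm₀ (Real.exp_pos 2) (by norm_num)]
    norm_num
    exact h1
  have h3 : (1 : ℝ) ≤ w := by linarith
  have h4 : w ^ 4 ≤ w ^ 7 := pow_le_pow_right₀ h3 (by norm_num)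
  have h5 : (1 : ℝ) ≤ w ^ 7 := one_le_pow₀ h3
  have h6 : 4800 * w ^ 7 ≤ w ^ 8 := by
    have : w ^ 8 = w * w ^ 7 := by ring
    rw [this]
    exact mul_le_mul_of_nonneg_right hw (by positivity)
  calc Real.exp (96 * w ^ 7) * Real.exp (-((w ^ 8 / 12 - 1) / 2))
      = Real.exp (96 * w ^ 7 + -((w ^ 8 / 12 - 1) / 2)) := (Real.exp_add _ _).symm
    _ ≤ Real.exp (-2 + -w ^ 4) := by
        apply Real.exp_le_exp.2
        nlinarith
    _ = Real.exp (-2) * Real.exp (-w ^ 4) := Real.exp_add _ _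
    _ ≤ 1 / 4 * Real.exp (-w ^ 4) := mul_le_mul_of_nonneg_right h2 (Real.exp_pos _).le

/-- UX15 (mass of the large parts). `high_mass` with `r = pm1 N`: `N / tri r ≤ 2 u^(3/2)`, so
`(N + 1)^(N / tri r) ≤ exp (2 u^(3/2) log (N + 1))`. `half_iter` with `K = ⌈2 N^(1/3)⌉`
(`4 N ≤ K tri K`, `tri K ≤ 6 u^4`), `j = (N / 2) / tri K ≥ u^2 / 12 - 2`: `p(N / 2) ≤ 2^(-j) p(N)`
(`N / 2 ≤ N - j tri K`, `card_mono`). `u^2` beats `u^(3/2) log N` and `u`. -/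
theorem bad_high : ∃ N0 : ℕ, ∀ N : ℕ, N0 ≤ N →
    ((((sy N).filter fun π => N < 2 * above π (pm1 N)).card : ℕ) : ℝ) ≤
      1 / 4 * Real.exp (-(N : ℝ) ^ (1 / 6 : ℝ)) * (((sy N).card : ℕ) : ℝ) := by
  refine ⟨4800 ^ 24, fun N hN => ?_⟩
  obtain ⟨w, hwd⟩ : ∃ w : ℝ, w = (N : ℝ) ^ (1 / 24 : ℝ) := ⟨_, rfl⟩
  have hNR : ((4800 : ℝ) ^ 24) ≤ N := by exact_mod_cast hN
  have hN0 : (0 : ℝ) ≤ N := Nat.cast_nonneg N
  have hw : 4800 ≤ w := by
    have h1 : ((4800 : ℝ) ^ 24) ^ (1 / 24 : ℝ) = 4800 := by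
      rw [← Real.rpow_natCast, ← Real.rpow_mul (by norm_num)]
      norm_num
    rw [hwd, ← h1]
    exact Real.rpow_le_rpow (by positivity) hNR (by norm_num)
  have hw0 : (0 : ℝ) < w := by linarith
  have hw1 : (1 : ℝ) ≤ w := by linarith
  have e6 : (N : ℝ) ^ (1 / 6 : ℝ) = w ^ 4 := by
    rw [hwd]; exact nh_pow (by norm_num)
  have e38 : (N : ℝ) ^ (3 / 8 : ℝ) = w ^ 9 := by
    rw [hwd]; exact nh_pow (by norm_num)
  have eN : (N : ℝ) = w ^ 24 := by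
    rw [hwd, ← nh_pow (N := N) (a := 1) (n := 24) (by norm_num), Real.rpow_one]
  -- the large parts
  have hr0 : w ^ 9 ≤ ((pm1 N : ℕ) : ℝ) := by
    unfold pm1
    rw [← e38]
    exact Nat.le_ceil _
  obtain ⟨r, hr⟩ : ∃ r, r = pm1 N := ⟨_, rfl⟩
  rw [← hr] at hr0 ⊢
  have hr1 : 1 ≤ r := by
    have h1 : (1 : ℝ) ≤ (r : ℝ) := le_trans (one_le_pow₀ hw1) hr0
    exact_mod_cast h1
  have hm := high_mass (N := N) hr1
  have htr : (2 : ℝ) * (tri r : ℕ) = r * (r + 1) := by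
    have h := two_tri r
    exact_mod_cast h
  have htr1 : w ^ 18 ≤ 2 * ((tri r : ℕ) : ℝ) := by
    rw [htr]
    have h1 : w ^ 18 = w ^ 9 * w ^ 9 := by ring
    rw [h1]
    exact mul_le_mul hr0 (by linarith) (by positivity) (by positivity)
  have htr0 : (0 : ℝ) < ((tri r : ℕ) : ℝ) := by
    have : (0 : ℝ) < w ^ 18 := by positivity
    linarith
  have hq : (((N / tri r : ℕ)) : ℝ) ≤ 2 * w ^ 6 := by
    refine le_trans Nat.cast_div_le ?_
    rw [div_le_iff₀ htr0, eN]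
    have h1 : w ^ 24 = w ^ 6 * w ^ 18 := by ring
    rw [h1]
    nlinarith [pow_pos hw0 6]
  have hlog : Real.log ((N : ℝ) + 1) ≤ 48 * w := by
    have h1 : (N : ℝ) + 1 ≤ (2 * w) ^ 24 := by
      rw [eN, mul_pow]
      have : (1 : ℝ) ≤ w ^ 24 := one_le_pow₀ hw1
      nlinarith
    have h2 : Real.log ((N : ℝ) + 1) ≤ Real.log ((2 * w) ^ 24) :=
      Real.log_le_log (by positivity) h1
    rw [Real.log_pow] at h2
    have h3 := Real.log_le_sub_one_of_pos (show (0 : ℝ) < 2 * w by positivity)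
    push_cast at h2
    linarith
  have hA : (((N + 1) ^ (N / tri r) : ℕ) : ℝ) ≤ Real.exp (96 * w ^ 7) := by
    push_cast
    have h1 : ((N : ℝ) + 1) ^ (N / tri r) =
        Real.exp (Real.log ((N : ℝ) + 1) * ((N / tri r : ℕ) : ℝ)) := by
      rw [mul_comm, Real.exp_nat_mul, Real.exp_log (by positivity)]
    rw [h1]
    apply Real.exp_le_exp.2
    have h2 : (96 : ℝ) * w ^ 7 = (48 * w) * (2 * w ^ 6) := by ring
    rw [h2]
    exact mul_le_mul hlog hq (Nat.cast_nonneg _) (by positivity)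
  -- halving
  obtain ⟨K, hK⟩ : ∃ K, K = ⌈2 * w ^ 8⌉₊ := ⟨_, rfl⟩
  have hK1 : 2 * w ^ 8 ≤ (K : ℝ) := by rw [hK]; exact Nat.le_ceil _
  have hK2 : (K : ℝ) < 2 * w ^ 8 + 1 := by rw [hK]; exact Nat.ceil_lt_add_one (by positivity)
  have hw8 : (1 : ℝ) ≤ w ^ 8 := one_le_pow₀ hw1
  have hKp : 1 ≤ K := by
    have : (1 : ℝ) ≤ (K : ℝ) := by linarith
    exact_mod_cast this
  have htK : (2 : ℝ) * (tri K : ℕ) = K * (K + 1) := by
    have h := two_tri K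
    exact_mod_cast h
  have h4N : 4 * N ≤ K * tri K := by
    have h1 : (4 : ℝ) * N ≤ K * ((tri K : ℕ) : ℝ) := by
      have h2 : (K : ℝ) * (2 * ((tri K : ℕ) : ℝ)) = K * (K * (K + 1)) := by rw [htK]
      have h3 : (8 : ℝ) * N ≤ K * (K * K) := by
        have h4 : (8 : ℝ) * N = (2 * w ^ 8) * ((2 * w ^ 8) * (2 * w ^ 8)) := by rw [eN]; ring
        rw [h4]
        have h5 : (0 : ℝ) ≤ 2 * w ^ 8 := by positivity
        exact mul_le_mul hK1 (mul_le_mul hK1 hK1 h5 (by linarith)) (by positivity) (by linarith)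
      have h6 : (0 : ℝ) ≤ K * K := by positivity
      nlinarith
    exact_mod_cast h1
  have htK6 : 2 * ((tri K : ℕ) : ℝ) ≤ 12 * w ^ 16 := by
    rw [htK]
    have h1 : (K : ℝ) ≤ 3 * w ^ 8 := by linarith
    have h2 : (K : ℝ) + 1 ≤ 4 * w ^ 8 := by linarith
    have h3 : (12 : ℝ) * w ^ 16 = (3 * w ^ 8) * (4 * w ^ 8) := by ring
    rw [h3]
    exact mul_le_mul h1 h2 (by positivity) (by positivity)
  have htK0 : 1 ≤ tri K := le_trans hKp (le_tri K)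
  obtain ⟨j, hj⟩ : ∃ j, j = (N / 2) / tri K := ⟨_, rfl⟩
  have hj1 : j * tri K ≤ N / 2 := by rw [hj]; exact Nat.div_mul_le_self _ _
  have hj2 : N / 2 < j * tri K + tri K := by rw [hj]; exact Nat.lt_div_mul_add htK0
  have hj3 : w ^ 8 / 12 - 1 ≤ (j : ℝ) := by
    have h1 : N ≤ 2 * (j * tri K + tri K) := by omega
    have h2 : (N : ℝ) ≤ 2 * ((j : ℝ) * (tri K : ℕ) + (tri K : ℕ)) := by exact_mod_cast h1
    have h3 : (N : ℝ) ≤ ((j : ℝ) + 1) * (12 * w ^ 16) := by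
      have h4 : 2 * ((j : ℝ) * (tri K : ℕ) + (tri K : ℕ)) =
          ((j : ℝ) + 1) * (2 * ((tri K : ℕ) : ℝ)) := by ring
      rw [h4] at h2
      exact le_trans h2 (mul_le_mul_of_nonneg_left htK6 (by positivity))
    rw [eN] at h3
    have h5 : w ^ 24 = w ^ 8 * w ^ 16 := by ring
    rw [h5] at h3
    have h6 : w ^ 8 * w ^ 16 ≤ (((j : ℝ) + 1) * 12) * w ^ 16 := by linarith
    have h7 := le_of_mul_le_mul_right h6 (by positivity : (0 : ℝ) < w ^ 16)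
    linarith
  have hh := half_iter (j := j) hKp h4N (le_trans hj1 (Nat.div_le_self N 2))
  have hmo : (sy (N / 2)).card ≤ (sy (N - j * tri K)).card := card_mono (by omega)
  have hh2 : 2 ^ j * (sy (N / 2)).card ≤ (sy N).card :=
    le_trans (Nat.mul_le_mul_left _ hmo) hh
  have hh3 : (2 : ℝ) ^ j * (((sy (N / 2)).card : ℕ) : ℝ) ≤ (((sy N).card : ℕ) : ℝ) := by
    exact_mod_cast hh2
  have h2j : Real.exp ((w ^ 8 / 12 - 1) / 2) ≤ (2 : ℝ) ^ j := by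
    have h1 : (2 : ℝ) ^ j = Real.exp ((j : ℝ) * Real.log 2) := by
      rw [Real.exp_nat_mul, Real.exp_log (by norm_num)]
    rw [h1]
    apply Real.exp_le_exp.2
    have h2 := Real.log_two_gt_d9
    have h3 : (0 : ℝ) ≤ j := Nat.cast_nonneg j
    nlinarith
  have hP2 : (((sy (N / 2)).card : ℕ) : ℝ) ≤
      Real.exp (-((w ^ 8 / 12 - 1) / 2)) * (((sy N).card : ℕ) : ℝ) := by
    rw [Real.exp_neg]
    have h1 : Real.exp ((w ^ 8 / 12 - 1) / 2) * (((sy (N / 2)).card : ℕ) : ℝ) ≤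
        (((sy N).card : ℕ) : ℝ) :=
      le_trans (mul_le_mul_of_nonneg_right h2j (Nat.cast_nonneg _)) hh3
    rw [← div_eq_inv_mul, le_div_iff₀ (Real.exp_pos _)]
    linarith
  have hmR : ((((sy N).filter fun π => N < 2 * above π r).card : ℕ) : ℝ) ≤
      (((N + 1) ^ (N / tri r) : ℕ) : ℝ) * (((sy (N / 2)).card : ℕ) : ℝ) := by
    exact_mod_cast hm
  rw [e6]
  calc ((((sy N).filter fun π => N < 2 * above π r).card : ℕ) : ℝ)
      ≤ (((N + 1) ^ (N / tri r) : ℕ) : ℝ) * (((sy (N / 2)).card : ℕ) : ℝ) := hmR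
    _ ≤ Real.exp (96 * w ^ 7) *
        (Real.exp (-((w ^ 8 / 12 - 1) / 2)) * (((sy N).card : ℕ) : ℝ)) :=
        mul_le_mul hA hP2 (Nat.cast_nonneg _) (Real.exp_pos _).le
    _ = (Real.exp (96 * w ^ 7) * Real.exp (-((w ^ 8 / 12 - 1) / 2))) *
        (((sy N).card : ℕ) : ℝ) := by ring
    _ ≤ (1 / 4 * Real.exp (-w ^ 4)) * (((sy N).card : ℕ) : ℝ) :=
        mul_le_mul_of_nonneg_right (nh_real hw) (Nat.cast_nonneg _)

end Pool.Agent.Lib.MP_6b2d39_agUx
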