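import Pool.Agent.Lib.MP_6b2d39_agUx.DefX

set_option autoImplicit false

namespace Pool.Agent.Lib.MP_6b2d39_agUx

open Pool.Agent.Lib.MP_6b2d39_agUm

open Classical in
/-- UX11 (largest part). `large_part` with `m0 = pM N + 1`, `K = ⌈2 N^(1/3)⌉` (`4 N ≤ K tri K`,
`tri K ≤ 6 u^4`), `j = tri m0 / tri K ≥ 32 u^5 / (6 u^4) - 1 ≥ 5 u - 1`: the proportion is at most
`(N + 1) 2^(1 - 5 u)`, `2^5 > e^3`. -/
theorem bad_large : ∃ N0 : ℕ, ∀ N : ℕ, N0 ≤ N →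
    ((((sy N).filter fun π => ∃ k ∈ π, pM N + 1 ≤ k).card : ℕ) : ℝ) ≤
      1 / 4 * Real.exp (-(N : ℝ) ^ (1 / 6 : ℝ)) * (((sy N).card : ℕ) : ℝ) := by
  have h1 : ∀ᶠ x : ℝ in Filter.atTop, x ^ 6 * Real.exp (-x) < 1 / 32 :=
    (Real.tendsto_pow_mul_exp_neg_atTop_nhds_zero 6).eventually_lt_const (by norm_num)
  have h2 : Filter.Tendsto (fun N : ℕ => (N : ℝ) ^ (1 / 6 : ℝ)) Filter.atTop Filter.atTop :=
    (tendsto_rpow_atTop (by norm_num)).comp tendsto_natCast_atTop_atTop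
  obtain ⟨N0, hN0⟩ := Filter.eventually_atTop.1
    ((h2.eventually h1).and (h2.eventually_ge_atTop 1))
  refine ⟨N0, fun N hN => ?_⟩
  obtain ⟨h3, hu1⟩ := hN0 N hN
  obtain ⟨u, hu⟩ : ∃ u : ℝ, u = (N : ℝ) ^ (1 / 6 : ℝ) := ⟨_, rfl⟩
  obtain ⟨w, hw⟩ : ∃ w : ℝ, w = (N : ℝ) ^ (5 / 12 : ℝ) := ⟨_, rfl⟩
  have hN0' : (0 : ℝ) ≤ N := Nat.cast_nonneg N
  have hN6 : (N : ℝ) = u ^ 6 := by
    rw [hu, ← Real.rpow_natCast, ← Real.rpow_mul hN0']
    norm_num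
  have hw2 : w ^ 2 = u ^ 5 := by
    rw [hw, hu, ← Real.rpow_natCast, ← Real.rpow_natCast, ← Real.rpow_mul hN0',
      ← Real.rpow_mul hN0']
    norm_num
  have hw0 : 0 ≤ w := by rw [hw]; exact Real.rpow_nonneg hN0' _
  rw [← hu] at h3 hu1 ⊢
  have hu0 : 0 < u := by linarith
  obtain ⟨K, hKd⟩ : ∃ K : ℕ, K = ⌈2 * u ^ 2⌉₊ := ⟨_, rfl⟩
  have hKl : 2 * u ^ 2 ≤ (K : ℝ) := by rw [hKd]; exact Nat.le_ceil _
  have hKu : (K : ℝ) < 2 * u ^ 2 + 1 := by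
    rw [hKd]
    exact Nat.ceil_lt_add_one (by positivity)
  have hK : 1 ≤ K := by
    have h4 : (0 : ℝ) < K := lt_of_lt_of_le (by positivity) hKl
    exact_mod_cast h4
  have htK : 2 * (tri K : ℝ) = K * (K + 1) := by exact_mod_cast two_tri K
  have hNK : 4 * N ≤ K * tri K := by
    have h4 : (4 : ℝ) * N ≤ K * tri K := by
      have h5 : (2 * u ^ 2) ^ 3 ≤ (K : ℝ) ^ 3 := pow_le_pow_left₀ (by positivity) hKl 3
      have h6 : (2 * u ^ 2) ^ 3 = 8 * (N : ℝ) := by rw [hN6]; ring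
      have h7 : 2 * (K * (tri K : ℝ)) = (K : ℝ) ^ 3 + (K : ℝ) ^ 2 := by
        linear_combination (K : ℝ) * htK
      have h8 : 0 ≤ (K : ℝ) ^ 2 := by positivity
      linarith
    exact_mod_cast h4
  obtain ⟨m0, hm0⟩ : ∃ m : ℕ, m = pM N + 1 := ⟨_, rfl⟩
  have hm0l : 8 * w ≤ (m0 : ℝ) := by
    have h4 : 8 * w ≤ (pM N : ℝ) := by
      rw [hw]
      exact Nat.le_ceil _
    rw [hm0]
    push_cast
    linarith
  have htm : 2 * (tri m0 : ℝ) = m0 * (m0 + 1) := by exact_mod_cast two_tri m0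
  have htm2 : 32 * u ^ 5 ≤ (tri m0 : ℝ) := by
    have h4 : (8 * w) ^ 2 ≤ (m0 : ℝ) ^ 2 := pow_le_pow_left₀ (by positivity) hm0l 2
    have h5 : (8 * w) ^ 2 = 64 * u ^ 5 := by rw [mul_pow, hw2]; ring
    have h6 : (0 : ℝ) ≤ m0 := Nat.cast_nonneg _
    nlinarith
  have htK2 : (tri K : ℝ) ≤ 6 * u ^ 4 := by
    have h4 : (K : ℝ) * (K + 1) ≤ (2 * u ^ 2 + 1) * (2 * u ^ 2 + 2) := by
      refine mul_le_mul hKu.le (by linarith) (by positivity) (by positivity)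
    have h5 : 1 ≤ u ^ 2 := one_le_pow₀ hu1
    nlinarith
  have htK1 : 1 ≤ tri K := le_trans hK (le_tri K)
  obtain ⟨j, hj⟩ : ∃ j : ℕ, j = tri m0 / tri K := ⟨_, rfl⟩
  have hj1 : j * tri K ≤ tri m0 := by rw [hj]; exact Nat.div_mul_le_self _ _
  have hj2 : tri m0 < j * tri K + tri K := by rw [hj]; exact Nat.lt_div_mul_add (by omega)
  have hj3 : (tri m0 : ℝ) < ((j : ℝ) + 1) * tri K := by
    have h4 : (tri m0 : ℝ) < j * tri K + tri K := by exact_mod_cast hj2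
    linarith
  have hj4 : 5 * u ≤ (j : ℝ) + 1 := by
    by_contra hcon
    rw [not_le] at hcon
    have h4 : ((j : ℝ) + 1) * tri K ≤ (5 * u) * (6 * u ^ 4) :=
      mul_le_mul hcon.le htK2 (by positivity) (by positivity)
    have h5 : 0 < u ^ 5 := by positivity
    nlinarith
  have he : Real.exp (1 / 2) ≤ 2 := by
    have h4 : Real.exp (1 / 2) ^ 2 = Real.exp 1 := by
      rw [← Real.exp_nat_mul]
      norm_num
    have h5 := Real.exp_one_lt_d9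
    have h6 := Real.exp_pos (1 / 2)
    nlinarith
  have hexp : Real.exp (2 * u) ≤ (2 : ℝ) ^ j := by
    calc Real.exp (2 * u) ≤ Real.exp ((j : ℝ) * (1 / 2)) := Real.exp_le_exp.2 (by linarith)
      _ = Real.exp (1 / 2) ^ j := Real.exp_nat_mul _ _
      _ ≤ 2 ^ j := pow_le_pow_left₀ (Real.exp_pos _).le he j
  have hmain := large_part (N := N) (K := K) (j := j) (m0 := m0) hK hNK hj1
  rw [hm0] at hmain
  obtain ⟨X, hX⟩ : ∃ X : ℕ, X = ((sy N).filter fun π => ∃ k ∈ π, pM N + 1 ≤ k).card := ⟨_, rfl⟩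
  obtain ⟨S, hS⟩ : ∃ S : ℕ, S = (sy N).card := ⟨_, rfl⟩
  rw [← hX, ← hS] at hmain
  rw [← hX, ← hS]
  have hm2 : (2 : ℝ) ^ j * X ≤ ((N : ℝ) + 1) * S := by exact_mod_cast hmain
  have hX0 : (0 : ℝ) ≤ X := Nat.cast_nonneg X
  have hS0 : (0 : ℝ) ≤ S := Nat.cast_nonneg S
  have hE : 0 < Real.exp u := Real.exp_pos u
  have h3' : u ^ 6 ≤ Real.exp u / 32 := by
    rw [Real.exp_neg, ← div_eq_mul_inv, div_lt_iff₀ hE] at h3
    linarith
  have hu6 : 1 ≤ u ^ 6 := one_le_pow₀ hu1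
  have hNS : ((N : ℝ) + 1) * S ≤ (Real.exp u / 16) * S := by
    refine mul_le_mul_of_nonneg_right ?_ hS0
    rw [hN6]
    linarith
  have h2u : Real.exp (2 * u) = Real.exp u * Real.exp u := by rw [two_mul, Real.exp_add]
  have hfin : Real.exp u * Real.exp u * X ≤ (Real.exp u / 16) * S := by
    rw [← h2u]
    exact (mul_le_mul_of_nonneg_right hexp hX0).trans (hm2.trans hNS)
  have hfin2 : Real.exp u * X ≤ (1 / 16) * S := by
    have h4 : Real.exp u * (Real.exp u * X) ≤ Real.exp u * ((1 / 16) * S) := by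
      calc Real.exp u * (Real.exp u * X) = Real.exp u * Real.exp u * X := by ring
        _ ≤ (Real.exp u / 16) * S := hfin
        _ = Real.exp u * ((1 / 16) * S) := by ring
    exact le_of_mul_le_mul_left h4 hE
  rw [Real.exp_neg]
  have h9 : (X : ℝ) ≤ (1 / 16) * S * (Real.exp u)⁻¹ := by
    rw [← div_eq_mul_inv, le_div_iff₀ hE]
    linarith
  refine h9.trans ?_
  have h10 : 0 ≤ (Real.exp u)⁻¹ * S := by positivity
  nlinarith

end Pool.Agent.Lib.MP_6b2d39_agUx
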