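import Pool.Agent.Lib.MP_6b2d39_agUx.ThinX
import Pool.Agent.Lib.MP_6b2d39_agUm.Shift
import Pool.Agent.Lib.MP_6b2d39_agUm.Few
import Pool.Agent.Lib.MP_6b2d39_agUm.Many

set_option autoImplicit false

namespace Pool.Agent.Lib.MP_6b2d39_agUx

open Pool.Agent.Lib.MP_6b2d39_agUm

private theorem cube_root (N : ℕ) : ((N : ℝ) ^ (1 / 3 : ℝ)) ^ 3 = N := by
  rw [← Real.rpow_natCast, ← Real.rpow_mul (Nat.cast_nonneg N)]
  norm_num

private theorem root_sq (N : ℕ) : ((N : ℝ) ^ (1 / 3 : ℝ)) ^ 2 = (N : ℝ) ^ (2 / 3 : ℝ) := by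
  rw [← Real.rpow_natCast, ← Real.rpow_mul (Nat.cast_nonneg N)]
  norm_num

private theorem root_large {N : ℕ} (h : 10 ^ 15 ≤ N) : (10 : ℝ) ^ 5 ≤ (N : ℝ) ^ (1 / 3 : ℝ) := by
  have h1 : ((10 : ℝ) ^ 15) ≤ (N : ℝ) := by exact_mod_cast h
  have h2 := cube_root N
  by_contra hc
  push Not at hc
  have h3 : ((N : ℝ) ^ (1 / 3 : ℝ)) ^ 3 < ((10 : ℝ) ^ 5) ^ 3 :=
    pow_lt_pow_left₀ hc (Real.rpow_nonneg (Nat.cast_nonneg N) _) (by norm_num)
  rw [h2] at h3
  norm_num at h3 h1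
  linarith

/-- UX3. `#(count 1 π < s) = card (sy N) - card (sy (N - s))` (`card_shift` with `k = 1`, `a = s`).
`few_ones` with `R = K = t = s`: the `π` with `count 1 π < s` and at least `s` different elements
`≥ s` are at most `(2 / s) card (sy N)`. The others: `thin_x`, with `s ≥ x / 2000`, `x = N^(1/3)`:
`(25 N / s ^ 3) ^ (2 s) ≤ exp (2 s * 27) ≤ exp (0.06 x)` (`s ≤ x / 1000`), and
`card (sy N) ≥ 2 ^ (⌊x⌋ - 1)` (`many`): at most `(1 / s) card (sy N)` for large `N`. -/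
theorem step_x : ∃ N1 : ℕ, ∀ N s : ℕ, N1 ≤ N → (N : ℝ) ^ (1 / 3 : ℝ) ≤ 2000 * s →
    1000 * (s : ℝ) ≤ (N : ℝ) ^ (1 / 3 : ℝ) →
    (((sy N).card : ℕ) : ℝ) ≤ (((sy (N - s)).card : ℕ) : ℝ) + 3 / s * (((sy N).card : ℕ) : ℝ) := by
  refine ⟨10 ^ 15, fun N s hN hlo hhi => ?_⟩
  classical
  have hx := root_large hN
  have hx3 := cube_root N
  set x : ℝ := (N : ℝ) ^ (1 / 3 : ℝ) with hxdef
  have hs50 : (50 : ℝ) ≤ s := by linarith
  have hs0 : (0 : ℝ) < s := by linarith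
  have hs2 : 2 ≤ s := by
    have : (2 : ℝ) ≤ s := by linarith
    exact_mod_cast this
  have hs1 : 1 ≤ s := by omega
  -- s ^ 3 ≤ N, (1000 s) ^ 3 ≤ N
  have h1000 : (1000 * s) ^ 3 ≤ N := by
    have h : ((1000 * (s : ℝ)) ^ 3) ≤ x ^ 3 := pow_le_pow_left₀ (by positivity) hhi 3
    rw [hx3] at h
    exact_mod_cast h
  have hs3 : s ^ 3 ≤ N := le_trans (Nat.pow_le_pow_left (by omega) 3) h1000
  have hsN : s ≤ N := le_trans (Nat.le_self_pow (by norm_num) s) hs3
  -- the splitting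
  have ht1 : tri 1 = 1 := by
    have := two_tri 1
    omega
  have hshift := card_shift (N := N) (k := 1) (a := s) le_rfl (by rw [ht1]; omega)
  rw [ht1, mul_one] at hshift
  have hsplit : (sy N).card = ((sy N).filter fun π => s ≤ π.count 1).card +
      ((sy N).filter fun π => ¬ (s ≤ π.count 1)).card :=
    (Finset.card_filter_add_card_filter_not _).symm
  have hcov : ((sy N).filter fun π => ¬ (s ≤ π.count 1)) ⊆
      ((sy N).filter fun π => π.count 1 < s ∧ s ≤ (π.toFinset.filter fun k => s ≤ k).card) ∪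
      ((sy N).filter fun π => (π.toFinset.filter fun k => s ≤ k).card < s) := by
    intro π hπ
    rw [Finset.mem_filter] at hπ
    rw [Finset.mem_union, Finset.mem_filter, Finset.mem_filter]
    by_cases hc : s ≤ (π.toFinset.filter fun k => s ≤ k).card
    · exact Or.inl ⟨hπ.1, by omega, hc⟩
    · exact Or.inr ⟨hπ.1, by omega⟩
  have hcard := (Finset.card_le_card hcov).trans (Finset.card_union_le _ _)
  have hfew := few_ones (N := N) (R := s) (K := s) (t := s) hs2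
  have hdiv : s / s = 1 := Nat.div_self (by omega)
  rw [hdiv] at hfew
  have hthin := thin_x hs1 hs3
  -- many
  have hmany : 2 ^ (1000 * s - 1) ≤ 2 * (sy N).card := by
    apply many
    obtain ⟨B, hB⟩ : ∃ B, 1000 * s = B + 1 := ⟨1000 * s - 1, by omega⟩
    have e1 : 1000 * s - 1 = B := by omega
    rw [e1]
    rw [hB] at h1000
    have e2 : B * (B + 1) * (B + 2) ≤ (B + 1) ^ 3 := by nlinarith [Nat.zero_le B]
    omega
  -- abbreviations
  set P := (sy N).card with hP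
  set F1 := ((sy N).filter fun π => π.count 1 < s ∧
    s ≤ (π.toFinset.filter fun k => s ≤ k).card).card with hF1
  set F2 := ((sy N).filter fun π => (π.toFinset.filter fun k => s ≤ k).card < s).card with hF2
  have hN8 : (25 * (N : ℝ) / (s : ℝ) ^ 3) ≤ 2 ^ 38 := by
    rw [div_le_iff₀ (by positivity)]
    have h : x ^ 3 ≤ (2000 * (s : ℝ)) ^ 3 := pow_le_pow_left₀ (by linarith) hlo 3
    rw [hx3, mul_pow] at h
    have h3 : (0 : ℝ) < (s : ℝ) ^ 3 := by positivity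
    norm_num at h ⊢
    nlinarith
  have hthin' : (F2 : ℝ) ≤ 2 ^ (76 * s) := by
    refine hthin.trans ?_
    have h : (25 * (N : ℝ) / (s : ℝ) ^ 3) ^ (2 * s) ≤ (2 ^ 38) ^ (2 * s) :=
      pow_le_pow_left₀ (by positivity) hN8 _
    refine h.trans (le_of_eq ?_)
    rw [← pow_mul]
    congr 1
    ring
  have hthinN : F2 ≤ 2 ^ (76 * s) := by exact_mod_cast hthin'
  have hsF2 : s * F2 ≤ P := by
    have h1 : s ≤ 2 ^ s := Nat.lt_two_pow_self.le
    have h2 : s * F2 ≤ 2 ^ s * 2 ^ (76 * s) := Nat.mul_le_mul h1 hthinN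
    rw [← pow_add] at h2
    have h3 : 2 ^ (s + 76 * s) * 2 ≤ 2 ^ (1000 * s - 1) := by
      rw [← pow_succ]
      exact Nat.pow_le_pow_right (by norm_num) (by omega)
    omega
  have htot : s * P ≤ s * (sy (N - s)).card + 3 * P := by
    have e0 : P ≤ (sy (N - s)).card + (F1 + F2) := by
      have := hshift
      omega
    calc s * P ≤ s * ((sy (N - s)).card + (F1 + F2)) := Nat.mul_le_mul_left _ e0
      _ = s * (sy (N - s)).card + (s * F1 + s * F2) := by ring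
      _ ≤ s * (sy (N - s)).card + 3 * P := by
        have e1 : s * F1 ≤ 2 * P := by
          calc s * F1 ≤ (1 + 1) * P := hfew
            _ = 2 * P := by ring
        omega
  have htotR : (s : ℝ) * P ≤ s * ((sy (N - s)).card : ℕ) + 3 * P := by exact_mod_cast htot
  have hfin : (P : ℝ) ≤ (s * ((sy (N - s)).card : ℕ) + 3 * P) / s := by
    rw [le_div_iff₀ hs0]
    linarith
  refine hfin.trans (le_of_eq ?_)
  field_simp

private theorem exp_step {y : ℝ} (h0 : 0 ≤ y) (h1 : y ≤ 1 / 2) : 1 ≤ (1 - y) * Real.exp (2 * y) := by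
  have h2 := Real.add_one_le_exp (2 * y)
  have h3 : (1 - y) * (2 * y + 1) ≤ (1 - y) * Real.exp (2 * y) :=
    mul_le_mul_of_nonneg_left h2 (by linarith)
  nlinarith

/-- UX4 (growth). For `N' ≥ N` and `s = ⌊N ^ (1/3) / 1000⌋ ≤ s' = ⌊N' ^ (1/3) / 1000⌋`: `step_x` for
`N', s'` gives `p(N') ≤ p(N' - s') / (1 - 3 / s') ≤ exp (6 / s') p(N' - s') ≤ exp (6 / s) p(N' - s)`
(`card_mono`, `s ≥ 6`). Strong induction on `R`: `p(N + R) ≤ exp (6 (R / s + 1) / s) p(N)`;
`s ≥ N ^ (1/3) / 2000`. -/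
theorem grow_x : ∃ N1 : ℕ, 1 ≤ N1 ∧ ∀ N R : ℕ, N1 ≤ N →
    (((sy (N + R)).card : ℕ) : ℝ) ≤
      Real.exp (24000000 * (R : ℝ) / (N : ℝ) ^ (2 / 3 : ℝ) + 1) * (((sy N).card : ℕ) : ℝ) := by
  obtain ⟨N0, hstep⟩ := step_x
  refine ⟨max N0 (10 ^ 15), le_trans (by norm_num) (le_max_right _ _), fun N R hN => ?_⟩
  have hN0 : N0 ≤ N := (le_max_left _ _).trans hN
  have hN15 : 10 ^ 15 ≤ N := (le_max_right _ _).trans hN
  have hx := root_large hN15
  have hsq := root_sq N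
  set x : ℝ := (N : ℝ) ^ (1 / 3 : ℝ) with hxdef
  obtain ⟨s, hs⟩ : ∃ s : ℕ, s = ⌊x / 1000⌋₊ := ⟨_, rfl⟩
  have hslo : x / 1000 < (s : ℝ) + 1 := by rw [hs]; exact Nat.lt_floor_add_one _
  have hshi : (s : ℝ) ≤ x / 1000 := by rw [hs]; exact Nat.floor_le (by linarith)
  have hs99 : (99 : ℝ) ≤ s := by linarith
  have hs0 : (0 : ℝ) < s := by linarith
  have hsx : x ≤ 2000 * s := by linarith
  -- one step
  have hone : ∀ N' : ℕ, N ≤ N' → (((sy N').card : ℕ) : ℝ) ≤
      Real.exp (6 / s) * (((sy (N' - s)).card : ℕ) : ℝ) := by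
    intro N' hNN
    have hxx : x ≤ (N' : ℝ) ^ (1 / 3 : ℝ) :=
      Real.rpow_le_rpow (Nat.cast_nonneg N) (by exact_mod_cast hNN) (by norm_num)
    set x' : ℝ := (N' : ℝ) ^ (1 / 3 : ℝ) with hx'def
    obtain ⟨s', hs'⟩ : ∃ s' : ℕ, s' = ⌊x' / 1000⌋₊ := ⟨_, rfl⟩
    have hslo' : x' / 1000 < (s' : ℝ) + 1 := by rw [hs']; exact Nat.lt_floor_add_one _
    have hshi' : (s' : ℝ) ≤ x' / 1000 := by rw [hs']; exact Nat.floor_le (by linarith)
    have hss : s ≤ s' := by
      rw [hs, hs']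
      exact Nat.floor_le_floor (by linarith)
    have hssR : (s : ℝ) ≤ s' := by exact_mod_cast hss
    have hs0' : (0 : ℝ) < s' := by linarith
    have h1 := hstep N' s' (hN0.trans hNN) (by linarith) (by linarith)
    have hy0 : (0 : ℝ) ≤ 3 / s' := by positivity
    have hy1 : (3 : ℝ) / s' ≤ 1 / 2 := by
      rw [div_le_div_iff₀ hs0' (by norm_num)]
      linarith
    have h2 := exp_step hy0 hy1
    have e6 : 2 * ((3 : ℝ) / s') = 6 / s' := by ring
    rw [e6] at h2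
    have hP0 : (0 : ℝ) ≤ (((sy N').card : ℕ) : ℝ) := Nat.cast_nonneg _
    have h3 : (((sy N').card : ℕ) : ℝ) * (1 - 3 / s') ≤ (((sy (N' - s')).card : ℕ) : ℝ) := by
      linarith
    have h4 : (((sy N').card : ℕ) : ℝ) ≤ Real.exp (6 / s') * (((sy (N' - s')).card : ℕ) : ℝ) := by
      calc (((sy N').card : ℕ) : ℝ) = (((sy N').card : ℕ) : ℝ) * 1 := (mul_one _).symm
        _ ≤ (((sy N').card : ℕ) : ℝ) * ((1 - 3 / s') * Real.exp (6 / s')) :=
          mul_le_mul_of_nonneg_left h2 hP0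
        _ = Real.exp (6 / s') * ((((sy N').card : ℕ) : ℝ) * (1 - 3 / s')) := by ring
        _ ≤ Real.exp (6 / s') * (((sy (N' - s')).card : ℕ) : ℝ) :=
          mul_le_mul_of_nonneg_left h3 (Real.exp_pos _).le
    have h5 : (((sy (N' - s')).card : ℕ) : ℝ) ≤ (((sy (N' - s)).card : ℕ) : ℝ) := by
      exact_mod_cast card_mono (by omega)
    have h6 : Real.exp (6 / s') ≤ Real.exp (6 / s) :=
      Real.exp_le_exp.2 (div_le_div_of_nonneg_left (by norm_num) hs0 hssR)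
    exact h4.trans (mul_le_mul h6 h5 (Nat.cast_nonneg _) (Real.exp_pos _).le)
  -- the induction
  have hP : (0 : ℝ) ≤ (((sy N).card : ℕ) : ℝ) := Nat.cast_nonneg _
  have hind : ∀ R : ℕ, (((sy (N + R)).card : ℕ) : ℝ) ≤
      Real.exp (6 * ((R : ℝ) / s + 1) / s) * (((sy N).card : ℕ) : ℝ) := by
    intro R
    induction R using Nat.strong_induction_on with
    | _ R ih =>
      have h1 := hone (N + R) (by omega)
      have hspos : 1 ≤ s := by
        have : (1 : ℝ) ≤ s := by linarith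
        exact_mod_cast this
      rcases le_or_gt R s with hRs | hRs
      · have h2 : (((sy (N + R - s)).card : ℕ) : ℝ) ≤ (((sy N).card : ℕ) : ℝ) := by
          exact_mod_cast card_mono (by omega)
        have h3 : Real.exp (6 / s) ≤ Real.exp (6 * ((R : ℝ) / s + 1) / s) := by
          refine Real.exp_le_exp.2 (div_le_div_of_nonneg_right ?_ hs0.le)
          have : (0 : ℝ) ≤ (R : ℝ) / s := by positivity
          linarith
        exact h1.trans (mul_le_mul h3 h2 (Nat.cast_nonneg _) (Real.exp_pos _).le)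
      · have h2 := ih (R - s) (by omega)
        have e1 : N + R - s = N + (R - s) := by omega
        rw [e1] at h1
        refine h1.trans ((mul_le_mul_of_nonneg_left h2 (Real.exp_pos _).le).trans (le_of_eq ?_))
        rw [← mul_assoc, ← Real.exp_add]
        have e2 : ((R - s : ℕ) : ℝ) = (R : ℝ) - s := by
          rw [Nat.cast_sub hRs.le]
        rw [e2]
        congr 2
        field_simp
        ring
  refine (hind R).trans (mul_le_mul_of_nonneg_right (Real.exp_le_exp.2 ?_) hP)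
  rw [← hsq]
  have hx0 : 0 < x := by linarith
  have e1 : 6 * ((R : ℝ) / s + 1) / s = 6 * R / (s : ℝ) ^ 2 + 6 / s := by
    field_simp
  rw [e1]
  have h1 : 6 * (R : ℝ) / (s : ℝ) ^ 2 ≤ 24000000 * (R : ℝ) / x ^ 2 := by
    rw [div_le_div_iff₀ (by positivity) (by positivity)]
    have h2 : x ^ 2 ≤ (2000 * (s : ℝ)) ^ 2 := pow_le_pow_left₀ hx0.le hsx 2
    have hR : (0 : ℝ) ≤ R := Nat.cast_nonneg R
    calc 6 * (R : ℝ) * x ^ 2 ≤ 6 * (R : ℝ) * (2000 * (s : ℝ)) ^ 2 :=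
        mul_le_mul_of_nonneg_left h2 (by positivity)
      _ = 24000000 * (R : ℝ) * (s : ℝ) ^ 2 := by ring
  have h2 : (6 : ℝ) / s ≤ 1 := by
    rw [div_le_one hs0]
    linarith
  linarith

end Pool.Agent.Lib.MP_6b2d39_agUx
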