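import Pool.Agent.Lib.MP_6b2d39_agUx.TailX
import Pool.Agent.Lib.MP_6b2d39_agUx.GrowX

set_option autoImplicit false

namespace Pool.Agent.Lib.MP_6b2d39_agUx

open Pool.Agent.Lib.MP_6b2d39_agUm

private theorem numT_floor {m : ℕ} (hm : 4 ≤ m) : (m : ℝ) / 8 ≤ ((m / 4 : ℕ) : ℝ) := by
  have h1 : m ≤ 8 * (m / 4) := by omega
  have h2 : (m : ℝ) ≤ 8 * ((m / 4 : ℕ) : ℝ) := by exact_mod_cast h1
  linarith

/-- UX12 (one `m`). `tail_union`, `grow_x` with `R = 2 m B t ≤ 4 m N^(2/3)`: the proportion is at most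
`2^m exp (10^8 m + 1) / B^(m / 4)`, `m / 4 ≥ m / 8` (real) as `m ≥ 4`, and
`2^m exp (10^8 m + 1) ≤ exp (10^9 m)`. -/
theorem tail_prop : ∃ N0 : ℕ, ∀ N t B m : ℕ, N0 ≤ N → 1 ≤ B → 4 ≤ m → tri m ≤ t →
    (B : ℝ) * t ≤ 2 * (N : ℝ) ^ (2 / 3 : ℝ) →
    ((((sy N).filter fun π => 2 * heavy π t m < m).card : ℕ) : ℝ) ≤
      Real.exp ((m : ℝ) * (10 ^ 9 - Real.log B / 8)) * (((sy N).card : ℕ) : ℝ) := by
  obtain ⟨N1, hN1, hg⟩ := grow_x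
  refine ⟨N1, fun N t B m hN hB hm ht hbt => ?_⟩
  have hN1' : (1 : ℝ) ≤ N := by exact_mod_cast hN1.trans hN
  have hx : (0 : ℝ) < (N : ℝ) ^ (2 / 3 : ℝ) := Real.rpow_pos_of_pos (by linarith) _
  have hB' : (1 : ℝ) ≤ B := by exact_mod_cast hB
  have hm' : (4 : ℝ) ≤ m := by exact_mod_cast hm
  have hS : (0 : ℝ) ≤ (((sy N).card : ℕ) : ℝ) := Nat.cast_nonneg _
  have h1 := tail_union (N := N) hB hm ht
  have h2 := hg N (2 * m * B * t) hN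
  set F : ℝ := ((((sy N).filter fun π => 2 * heavy π t m < m).card : ℕ) : ℝ) with hF
  set S : ℝ := (((sy N).card : ℕ) : ℝ) with hSd
  have h1' : (B : ℝ) ^ (m / 4) * F ≤ 2 ^ m * (((sy (N + 2 * m * B * t)).card : ℕ) : ℝ) := by
    rw [hF]; exact_mod_cast h1
  have h3 : 24000000 * (((2 * m * B * t : ℕ) : ℕ) : ℝ) / (N : ℝ) ^ (2 / 3 : ℝ) + 1 ≤
      96000000 * (m : ℝ) + 1 := by
    have h4 : (((2 * m * B * t : ℕ) : ℕ) : ℝ) ≤ 4 * m * (N : ℝ) ^ (2 / 3 : ℝ) := by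
      push_cast
      nlinarith
    have h5 : 24000000 * (((2 * m * B * t : ℕ) : ℕ) : ℝ) / (N : ℝ) ^ (2 / 3 : ℝ) ≤
        96000000 * (m : ℝ) := by
      rw [div_le_iff₀ hx]
      nlinarith
    linarith
  have h6 : (((sy (N + 2 * m * B * t)).card : ℕ) : ℝ) ≤ Real.exp (96000000 * (m : ℝ) + 1) * S :=
    h2.trans (mul_le_mul_of_nonneg_right (Real.exp_le_exp.2 h3) hS)
  have h7 : (2 : ℝ) ^ m ≤ Real.exp (m : ℝ) := by
    have h8 : (2 : ℝ) ≤ Real.exp 1 := by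
      have := Real.add_one_le_exp (1 : ℝ)
      linarith
    calc (2 : ℝ) ^ m ≤ (Real.exp 1) ^ m := pow_le_pow_left₀ (by norm_num) h8 m
      _ = Real.exp (m : ℝ) := by rw [← Real.exp_nat_mul, mul_one]
  have h9 : Real.exp ((m : ℝ) / 8 * Real.log B) ≤ (B : ℝ) ^ (m / 4) := by
    have hl : 0 ≤ Real.log B := Real.log_nonneg hB'
    calc Real.exp ((m : ℝ) / 8 * Real.log B) ≤ Real.exp (((m / 4 : ℕ) : ℝ) * Real.log B) :=
          Real.exp_le_exp.2 (mul_le_mul_of_nonneg_right (numT_floor hm) hl)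
      _ = (B : ℝ) ^ (m / 4) := by
          rw [Real.exp_nat_mul, Real.exp_log (by linarith)]
  have hF0 : 0 ≤ F := by rw [hF]; exact Nat.cast_nonneg _
  have h10 : Real.exp ((m : ℝ) / 8 * Real.log B) * F ≤
      Real.exp (m : ℝ) * (Real.exp (96000000 * (m : ℝ) + 1) * S) :=
    calc Real.exp ((m : ℝ) / 8 * Real.log B) * F ≤ (B : ℝ) ^ (m / 4) * F :=
          mul_le_mul_of_nonneg_right h9 hF0
      _ ≤ 2 ^ m * (((sy (N + 2 * m * B * t)).card : ℕ) : ℝ) := h1'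
      _ ≤ Real.exp (m : ℝ) * (Real.exp (96000000 * (m : ℝ) + 1) * S) :=
          mul_le_mul h7 h6 (Nat.cast_nonneg _) (Real.exp_pos _).le
  have h11 : Real.exp (m : ℝ) * (Real.exp (96000000 * (m : ℝ) + 1) * S) ≤
      Real.exp (10 ^ 9 * (m : ℝ)) * S := by
    rw [← mul_assoc, ← Real.exp_add]
    exact mul_le_mul_of_nonneg_right (Real.exp_le_exp.2 (by nlinarith)) hS
  have h12 : F = Real.exp (-((m : ℝ) / 8 * Real.log B)) *
      (Real.exp ((m : ℝ) / 8 * Real.log B) * F) := by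
    rw [← mul_assoc, ← Real.exp_add, neg_add_cancel, Real.exp_zero, one_mul]
  calc F = Real.exp (-((m : ℝ) / 8 * Real.log B)) *
      (Real.exp ((m : ℝ) / 8 * Real.log B) * F) := h12
    _ ≤ Real.exp (-((m : ℝ) / 8 * Real.log B)) * (Real.exp (10 ^ 9 * (m : ℝ)) * S) :=
        mul_le_mul_of_nonneg_left (h10.trans h11) (Real.exp_pos _).le
    _ = Real.exp ((m : ℝ) * (10 ^ 9 - Real.log B / 8)) * S := by
        rw [← mul_assoc, ← Real.exp_add]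
        congr 2
        ring

private theorem numT_pow {a : ℝ} (ha : 0 < a) :
    Filter.Tendsto (fun N : ℕ => (N : ℝ) ^ a) Filter.atTop Filter.atTop :=
  (tendsto_rpow_atTop ha).comp tendsto_natCast_atTop_atTop

private theorem numT_ev {a : ℝ} (ha : 0 < a) (c : ℝ) :
    ∀ᶠ N : ℕ in Filter.atTop, c ≤ (N : ℝ) ^ a :=
  (numT_pow ha).eventually (Filter.eventually_ge_atTop c)

/-- `tri m0 ≤ N ^ (7 / 12)` -/
private theorem numT_tri {N : ℕ} (hN : 1 ≤ N) :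
    ((tri (pm0 N) : ℕ) : ℝ) ≤ (N : ℝ) ^ (7 / 12 : ℝ) := by
  have hN' : (1 : ℝ) ≤ N := by exact_mod_cast hN
  have h0 : (0 : ℝ) ≤ N := by linarith
  have h1 : ((pm0 N : ℕ) : ℝ) ≤ (N : ℝ) ^ (7 / 24 : ℝ) :=
    Nat.floor_le (Real.rpow_nonneg h0 _)
  have h2 : ((pm0 N : ℕ) : ℝ) ^ 2 ≤ (N : ℝ) ^ (7 / 12 : ℝ) := by
    have h3 : ((N : ℝ) ^ (7 / 24 : ℝ)) ^ 2 = (N : ℝ) ^ (7 / 12 : ℝ) := by
      rw [← Real.rpow_natCast, ← Real.rpow_mul h0]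
      norm_num
    rw [← h3]
    exact pow_le_pow_left₀ (Nat.cast_nonneg _) h1 2
  have h4 : tri (pm0 N) ≤ pm0 N ^ 2 := by
    have h5 := two_tri (pm0 N)
    have h6 : pm0 N ≤ pm0 N ^ 2 := by
      rcases Nat.eq_zero_or_pos (pm0 N) with h | h
      · omega
      · nlinarith
    nlinarith
  calc ((tri (pm0 N) : ℕ) : ℝ) ≤ ((pm0 N ^ 2 : ℕ) : ℝ) := by exact_mod_cast h4
    _ = ((pm0 N : ℕ) : ℝ) ^ 2 := by push_cast; ring
    _ ≤ _ := h2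

/-- `4 (N + 1) ≤ exp (2 u)` -/
private theorem numT_exp : ∀ᶠ N : ℕ in Filter.atTop,
    4 * ((N : ℝ) + 1) ≤ Real.exp (2 * (N : ℝ) ^ (1 / 6 : ℝ)) := by
  have h1 := (Real.tendsto_pow_mul_exp_neg_atTop_nhds_zero 6).comp
    (numT_pow (a := (1 / 6 : ℝ)) (by norm_num))
  have h2 := h1.eventually (gt_mem_nhds (show (0 : ℝ) < 1 by norm_num))
  filter_upwards [h2, numT_ev (a := (1 / 6 : ℝ)) (by norm_num) 8, Filter.eventually_ge_atTop 1]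
    with N hN hu hN1
  have hN' : (1 : ℝ) ≤ N := by exact_mod_cast hN1
  have h0 : (0 : ℝ) ≤ N := by linarith
  set u : ℝ := (N : ℝ) ^ (1 / 6 : ℝ) with hud
  have h3 : u ^ 6 = N := by
    rw [hud, ← Real.rpow_natCast, ← Real.rpow_mul h0]
    norm_num
  have h4 : u ^ 6 * Real.exp (-u) < 1 := hN
  have h5 : (N : ℝ) ≤ Real.exp u := by
    have h6 : u ^ 6 = u ^ 6 * Real.exp (-u) * Real.exp u := by
      rw [mul_assoc, ← Real.exp_add, neg_add_cancel, Real.exp_zero, mul_one]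
    rw [h3] at h6 h4
    rw [h6]
    nlinarith [Real.exp_pos u]
  have h7 : 8 ≤ Real.exp u := by
    have := Real.add_one_le_exp u
    linarith
  calc 4 * ((N : ℝ) + 1) ≤ 8 * N := by linarith
    _ ≤ Real.exp u * Real.exp u := mul_le_mul h7 h5 h0 (Real.exp_pos _).le
    _ = Real.exp (2 * u) := by rw [← Real.exp_add]; ring_nf

open Classical in
/-- UX13 (small `m`). Union over `pA B N ≤ m ≤ pm0 N` (at most `u^2` values; `4 ≤ m` for large `N`) of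
`tail_prop` with `t = pt1 N`, `B1 = ⌊u^(1/2)⌋` (`B1 pt1 ≤ u^(1/2) (u^(7/2) + 1) ≤ 2 u^4`,
`tri (pm0 N) ≤ u^(7/2) ≤ pt1 N`): for large `N` (given `B`)
`10^9 - log B1 / 8 ≤ - 4 * 10^9 B^2`, and `m ≥ pA B N ≥ u / (2 * 10^9 B^2)`: every term is at most
`exp (-2 u)`. -/
theorem bad_small (B : ℕ) (hB : 1 ≤ B) : ∃ N0 : ℕ, ∀ N : ℕ, N0 ≤ N →
    ((((sy N).filter fun π => ∃ m, pA B N ≤ m ∧ m ≤ pm0 N ∧ 2 * heavy π (pt1 N) m < m).card : ℕ) :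
      ℝ) ≤ 1 / 4 * Real.exp (-(N : ℝ) ^ (1 / 6 : ℝ)) * (((sy N).card : ℕ) : ℝ) := by
  obtain ⟨N1, ht⟩ := tail_prop
  have hB' : (1 : ℝ) ≤ B := by exact_mod_cast hB
  have hK : (0 : ℝ) < 10 ^ 9 * (B : ℝ) ^ 2 := by positivity
  have hlog : ∀ᶠ N : ℕ in Filter.atTop,
      8 * (10 ^ 9 + 4 * (10 ^ 9 * (B : ℝ) ^ 2)) ≤
        Real.log ((⌊(N : ℝ) ^ (1 / 12 : ℝ)⌋₊ : ℕ) : ℝ) := by
    have h1 : Filter.Tendsto (fun N : ℕ => ⌊(N : ℝ) ^ (1 / 12 : ℝ)⌋₊) Filter.atTop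
        Filter.atTop := tendsto_nat_floor_atTop.comp (numT_pow (by norm_num))
    have h2 := Real.tendsto_log_atTop.comp (tendsto_natCast_atTop_atTop.comp h1)
    exact h2.eventually (Filter.eventually_ge_atTop _)
  have hev : ∀ᶠ N : ℕ in Filter.atTop,
      ((((sy N).filter fun π => ∃ m, pA B N ≤ m ∧ m ≤ pm0 N ∧
        2 * heavy π (pt1 N) m < m).card : ℕ) : ℝ) ≤
      1 / 4 * Real.exp (-(N : ℝ) ^ (1 / 6 : ℝ)) * (((sy N).card : ℕ) : ℝ) := by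
    filter_upwards [hlog, numT_exp, Filter.eventually_ge_atTop (max 1 N1),
      numT_ev (a := (1 / 6 : ℝ)) (by norm_num) (5 * (10 ^ 9 * (B : ℝ) ^ 2))] with N hl hx hN hu
    have hN1 : 1 ≤ N := (le_max_left _ _).trans hN
    have hN2 : N1 ≤ N := (le_max_right _ _).trans hN
    have hN' : (1 : ℝ) ≤ N := by exact_mod_cast hN1
    have h0 : (0 : ℝ) ≤ N := by linarith
    have hS : (0 : ℝ) ≤ (((sy N).card : ℕ) : ℝ) := Nat.cast_nonneg _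
    set u : ℝ := (N : ℝ) ^ (1 / 6 : ℝ) with hud
    have hA1 : u / (10 ^ 9 * (B : ℝ) ^ 2) - 1 < ((pA B N : ℕ) : ℝ) := Nat.sub_one_lt_floor _
    have hA4 : 4 ≤ pA B N := by
      refine Nat.le_floor ?_
      rw [le_div_iff₀ hK]
      push_cast
      nlinarith
    have hb1 : 1 ≤ ⌊(N : ℝ) ^ (1 / 12 : ℝ)⌋₊ := by
      refine Nat.le_floor ?_
      push_cast
      exact Real.one_le_rpow hN' (by norm_num)
    have hbt : ((⌊(N : ℝ) ^ (1 / 12 : ℝ)⌋₊ : ℕ) : ℝ) * ((pt1 N : ℕ) : ℝ) ≤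
        2 * (N : ℝ) ^ (2 / 3 : ℝ) := by
      have h1 : ((⌊(N : ℝ) ^ (1 / 12 : ℝ)⌋₊ : ℕ) : ℝ) ≤ (N : ℝ) ^ (1 / 12 : ℝ) :=
        Nat.floor_le (Real.rpow_nonneg h0 _)
      have h2 : ((pt1 N : ℕ) : ℝ) ≤ (N : ℝ) ^ (7 / 12 : ℝ) + 1 :=
        (Nat.ceil_lt_add_one (Real.rpow_nonneg h0 _)).le
      have h3 : (N : ℝ) ^ (1 / 12 : ℝ) * (N : ℝ) ^ (7 / 12 : ℝ) = (N : ℝ) ^ (2 / 3 : ℝ) := by
        rw [← Real.rpow_add (by linarith)]
        norm_num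
      have h4 : (N : ℝ) ^ (1 / 12 : ℝ) ≤ (N : ℝ) ^ (2 / 3 : ℝ) :=
        Real.rpow_le_rpow_of_exponent_le hN' (by norm_num)
      calc ((⌊(N : ℝ) ^ (1 / 12 : ℝ)⌋₊ : ℕ) : ℝ) * ((pt1 N : ℕ) : ℝ)
          ≤ (N : ℝ) ^ (1 / 12 : ℝ) * ((N : ℝ) ^ (7 / 12 : ℝ) + 1) :=
            mul_le_mul h1 h2 (Nat.cast_nonneg _) (Real.rpow_nonneg h0 _)
        _ = (N : ℝ) ^ (2 / 3 : ℝ) + (N : ℝ) ^ (1 / 12 : ℝ) := by rw [mul_add, h3, mul_one]
        _ ≤ 2 * (N : ℝ) ^ (2 / 3 : ℝ) := by linarith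
    have hterm : ∀ m ∈ Finset.Icc (pA B N) (pm0 N),
        ((((sy N).filter fun π => 2 * heavy π (pt1 N) m < m).card : ℕ) : ℝ) ≤
          Real.exp (-(3 * u)) * (((sy N).card : ℕ) : ℝ) := by
      intro m hm
      obtain ⟨hm1, hm2⟩ := Finset.mem_Icc.1 hm
      have hm4 : 4 ≤ m := hA4.trans hm1
      have htri : tri m ≤ pt1 N := by
        have h1 : tri m ≤ tri (pm0 N) := tri_mono hm2
        have h2 := numT_tri hN1
        have h3 : (N : ℝ) ^ (7 / 12 : ℝ) ≤ ((pt1 N : ℕ) : ℝ) := Nat.le_ceil _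
        have h4 : tri (pm0 N) ≤ pt1 N := by exact_mod_cast h2.trans h3
        exact h1.trans h4
      refine (ht N (pt1 N) _ m hN2 hb1 hm4 htri hbt).trans
        (mul_le_mul_of_nonneg_right (Real.exp_le_exp.2 ?_) hS)
      have hmA : u / (10 ^ 9 * (B : ℝ) ^ 2) - 1 ≤ (m : ℝ) :=
        hA1.le.trans (by exact_mod_cast hm1)
      have h5 : u - 10 ^ 9 * (B : ℝ) ^ 2 ≤ 10 ^ 9 * (B : ℝ) ^ 2 * (m : ℝ) := by
        have h6 : u / (10 ^ 9 * (B : ℝ) ^ 2) * (10 ^ 9 * (B : ℝ) ^ 2) = u :=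
          div_mul_cancel₀ _ hK.ne'
        nlinarith
      have h7 : (10 : ℝ) ^ 9 - Real.log ((⌊(N : ℝ) ^ (1 / 12 : ℝ)⌋₊ : ℕ) : ℝ) / 8 ≤
          -(4 * (10 ^ 9 * (B : ℝ) ^ 2)) := by linarith
      have h8 : (0 : ℝ) ≤ m := Nat.cast_nonneg _
      calc (m : ℝ) * (10 ^ 9 - Real.log ((⌊(N : ℝ) ^ (1 / 12 : ℝ)⌋₊ : ℕ) : ℝ) / 8)
          ≤ (m : ℝ) * (-(4 * (10 ^ 9 * (B : ℝ) ^ 2))) := mul_le_mul_of_nonneg_left h7 h8
        _ = -(4 * (10 ^ 9 * (B : ℝ) ^ 2 * (m : ℝ))) := by ring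
        _ ≤ -(3 * u) := by nlinarith
    have hsub : ((sy N).filter fun π => ∃ m, pA B N ≤ m ∧ m ≤ pm0 N ∧
        2 * heavy π (pt1 N) m < m) ⊆
        (Finset.Icc (pA B N) (pm0 N)).biUnion
          (fun m => (sy N).filter fun π => 2 * heavy π (pt1 N) m < m) := by
      intro π hπ
      obtain ⟨h1, m, h2, h3, h4⟩ := Finset.mem_filter.1 hπ
      exact Finset.mem_biUnion.2 ⟨m, Finset.mem_Icc.2 ⟨h2, h3⟩, Finset.mem_filter.2 ⟨h1, h4⟩⟩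
    have hcard : ((((sy N).filter fun π => ∃ m, pA B N ≤ m ∧ m ≤ pm0 N ∧
        2 * heavy π (pt1 N) m < m).card : ℕ) : ℝ) ≤
        ∑ m ∈ Finset.Icc (pA B N) (pm0 N),
          ((((sy N).filter fun π => 2 * heavy π (pt1 N) m < m).card : ℕ) : ℝ) := by
      exact_mod_cast (Finset.card_le_card hsub).trans Finset.card_biUnion_le
    have hnum : ((Finset.Icc (pA B N) (pm0 N)).card : ℝ) ≤ (N : ℝ) + 1 := by
      have h1 : ((pm0 N : ℕ) : ℝ) ≤ (N : ℝ) ^ (7 / 24 : ℝ) :=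
        Nat.floor_le (Real.rpow_nonneg h0 _)
      have h2 : (N : ℝ) ^ (7 / 24 : ℝ) ≤ N := by
        calc (N : ℝ) ^ (7 / 24 : ℝ) ≤ (N : ℝ) ^ (1 : ℝ) :=
              Real.rpow_le_rpow_of_exponent_le hN' (by norm_num)
          _ = N := Real.rpow_one _
      have h3 : (Finset.Icc (pA B N) (pm0 N)).card ≤ pm0 N + 1 := by
        rw [Nat.card_Icc]; omega
      have h4 : ((Finset.Icc (pA B N) (pm0 N)).card : ℝ) ≤ ((pm0 N : ℕ) : ℝ) + 1 := by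
        exact_mod_cast h3
      linarith
    calc ((((sy N).filter fun π => ∃ m, pA B N ≤ m ∧ m ≤ pm0 N ∧
          2 * heavy π (pt1 N) m < m).card : ℕ) : ℝ)
        ≤ ∑ m ∈ Finset.Icc (pA B N) (pm0 N),
          ((((sy N).filter fun π => 2 * heavy π (pt1 N) m < m).card : ℕ) : ℝ) := hcard
      _ ≤ ∑ _m ∈ Finset.Icc (pA B N) (pm0 N),
          Real.exp (-(3 * u)) * (((sy N).card : ℕ) : ℝ) := Finset.sum_le_sum hterm
      _ = ((Finset.Icc (pA B N) (pm0 N)).card : ℝ) *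
          (Real.exp (-(3 * u)) * (((sy N).card : ℕ) : ℝ)) := by
          rw [Finset.sum_const, nsmul_eq_mul]
      _ ≤ (1 / 4 * Real.exp (2 * u)) * (Real.exp (-(3 * u)) * (((sy N).card : ℕ) : ℝ)) := by
          refine mul_le_mul_of_nonneg_right ?_ (mul_nonneg (Real.exp_pos _).le hS)
          linarith
      _ = 1 / 4 * Real.exp (-u) * (((sy N).card : ℕ) : ℝ) := by
          have h1 : Real.exp (2 * u) * Real.exp (-(3 * u)) = Real.exp (-u) := by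
            rw [← Real.exp_add]
            congr 1
            ring
          rw [← h1]
          ring
  obtain ⟨N0, h⟩ := Filter.eventually_atTop.1 hev
  exact ⟨N0, fun N hN => h N hN⟩

/-- UX14 (`m = m0`). `B = ⌈exp (8 * 10^9 + 8)⌉`, `t = pt2 B N` (`B t ≤ u^4 + B ≤ 2 u^4`,
`tri (pm0 N) ≤ u^(7/2) ≤ u^4 / B`): `tail_prop` gives `exp (-pm0 N)`, `pm0 N ≥ u^(7/4) / 2`. -/
theorem bad_mid : ∃ B : ℕ, 1 ≤ B ∧ ∃ N0 : ℕ, ∀ N : ℕ, N0 ≤ N →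
    ((((sy N).filter fun π => 2 * heavy π (pt2 B N) (pm0 N) < pm0 N).card : ℕ) : ℝ) ≤
      1 / 4 * Real.exp (-(N : ℝ) ^ (1 / 6 : ℝ)) * (((sy N).card : ℕ) : ℝ) := by
  obtain ⟨N1, ht⟩ := tail_prop
  obtain ⟨B, hBe⟩ := exists_nat_ge (Real.exp (8 * 10 ^ 9 + 8))
  have hB1 : (1 : ℝ) ≤ B := (Real.one_le_exp (by norm_num)).trans hBe
  have hB : 1 ≤ B := by exact_mod_cast hB1
  have hlog : 8 * 10 ^ 9 + 8 ≤ Real.log B := (Real.le_log_iff_exp_le (by linarith)).2 hBe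
  refine ⟨B, hB, ?_⟩
  have hev : ∀ᶠ N : ℕ in Filter.atTop,
      ((((sy N).filter fun π => 2 * heavy π (pt2 B N) (pm0 N) < pm0 N).card : ℕ) : ℝ) ≤
      1 / 4 * Real.exp (-(N : ℝ) ^ (1 / 6 : ℝ)) * (((sy N).card : ℕ) : ℝ) := by
    filter_upwards [Filter.eventually_ge_atTop (max 1 N1),
      numT_ev (a := (1 / 12 : ℝ)) (by norm_num) (B : ℝ),
      numT_ev (a := (1 / 8 : ℝ)) (by norm_num) 2,
      numT_ev (a := (1 / 6 : ℝ)) (by norm_num) 4] with N hN hb12 h8 hu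
    have hN1 : 1 ≤ N := (le_max_left _ _).trans hN
    have hN2 : N1 ≤ N := (le_max_right _ _).trans hN
    have hN' : (1 : ℝ) ≤ N := by exact_mod_cast hN1
    have h0 : (0 : ℝ) ≤ N := by linarith
    have hS : (0 : ℝ) ≤ (((sy N).card : ℕ) : ℝ) := Nat.cast_nonneg _
    set u : ℝ := (N : ℝ) ^ (1 / 6 : ℝ) with hud
    have hm0 : 2 * u - 1 < ((pm0 N : ℕ) : ℝ) := by
      have h1 : (N : ℝ) ^ (7 / 24 : ℝ) - 1 < ((pm0 N : ℕ) : ℝ) := Nat.sub_one_lt_floor _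
      have h2 : (N : ℝ) ^ (1 / 8 : ℝ) * u = (N : ℝ) ^ (7 / 24 : ℝ) := by
        rw [hud, ← Real.rpow_add (by linarith)]
        norm_num
      nlinarith
    have hm4 : 4 ≤ pm0 N := by
      have h1 : (4 : ℝ) ≤ ((pm0 N : ℕ) : ℝ) := by linarith
      exact_mod_cast h1
    have h712 : (N : ℝ) ^ (1 / 12 : ℝ) * (N : ℝ) ^ (7 / 12 : ℝ) = (N : ℝ) ^ (2 / 3 : ℝ) := by
      rw [← Real.rpow_add (by linarith)]
      norm_num
    have h7 : (1 : ℝ) ≤ (N : ℝ) ^ (7 / 12 : ℝ) := Real.one_le_rpow hN' (by norm_num)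
    have hBp : (0 : ℝ) < B := by linarith
    have htri : tri (pm0 N) ≤ pt2 B N := by
      have h2 := numT_tri hN1
      have h3 : (N : ℝ) ^ (2 / 3 : ℝ) / B ≤ ((pt2 B N : ℕ) : ℝ) := Nat.le_ceil _
      have h4 : (N : ℝ) ^ (7 / 12 : ℝ) ≤ (N : ℝ) ^ (2 / 3 : ℝ) / B := by
        rw [le_div_iff₀ hBp, ← h712]
        nlinarith
      exact_mod_cast h2.trans (h4.trans h3)
    have hbt : (B : ℝ) * ((pt2 B N : ℕ) : ℝ) ≤ 2 * (N : ℝ) ^ (2 / 3 : ℝ) := by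
      have h2 : ((pt2 B N : ℕ) : ℝ) ≤ (N : ℝ) ^ (2 / 3 : ℝ) / B + 1 :=
        (Nat.ceil_lt_add_one (div_nonneg (Real.rpow_nonneg h0 _) hBp.le)).le
      have h3 : (B : ℝ) ≤ (N : ℝ) ^ (2 / 3 : ℝ) := by
        rw [← h712]
        nlinarith
      calc (B : ℝ) * ((pt2 B N : ℕ) : ℝ) ≤ B * ((N : ℝ) ^ (2 / 3 : ℝ) / B + 1) :=
            mul_le_mul_of_nonneg_left h2 hBp.le
        _ = (N : ℝ) ^ (2 / 3 : ℝ) + B := by
            rw [mul_add, mul_one, mul_div_cancel₀ _ hBp.ne']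
        _ ≤ 2 * (N : ℝ) ^ (2 / 3 : ℝ) := by linarith
    refine (ht N (pt2 B N) B (pm0 N) hN2 hB hm4 htri hbt).trans
      (mul_le_mul_of_nonneg_right ?_ hS)
    have h9 : ((pm0 N : ℕ) : ℝ) * (10 ^ 9 - Real.log B / 8) ≤ -u + -2 := by
      have h10 : (10 : ℝ) ^ 9 - Real.log B / 8 ≤ -1 := by linarith
      have h11 : (0 : ℝ) ≤ ((pm0 N : ℕ) : ℝ) := Nat.cast_nonneg _
      nlinarith
    have h12 : Real.exp (-2) ≤ 1 / 4 := by
      have h13 : (4 : ℝ) ≤ Real.exp 2 := by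
        have h14 := Real.add_one_le_exp (1 : ℝ)
        have h15 : Real.exp 2 = Real.exp 1 * Real.exp 1 := by
          rw [← Real.exp_add]; norm_num
        rw [h15]
        nlinarith
      rw [Real.exp_neg, one_div]
      exact inv_anti₀ (by norm_num) h13
    calc Real.exp (((pm0 N : ℕ) : ℝ) * (10 ^ 9 - Real.log B / 8)) ≤ Real.exp (-u + -2) :=
          Real.exp_le_exp.2 h9
      _ = Real.exp (-2) * Real.exp (-u) := by rw [Real.exp_add, mul_comm]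
      _ ≤ 1 / 4 * Real.exp (-u) := mul_le_mul_of_nonneg_right h12 (Real.exp_pos _).le
  obtain ⟨N0, h⟩ := Filter.eventually_atTop.1 hev
  exact ⟨N0, fun N hN => h N hN⟩

end Pool.Agent.Lib.MP_6b2d39_agUx
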