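import Pool.Agent.Lib.MP_6b2d39_agUx.GoodX
import Pool.Agent.Lib.MP_6b2d39_agUx.NumA
import Pool.Agent.Lib.MP_6b2d39_agUx.NumL
import Pool.Agent.Lib.MP_6b2d39_agUx.NumT
import Pool.Agent.Lib.MP_6b2d39_agUx.NumH

set_option autoImplicit false

namespace Pool.Agent.Lib.MP_6b2d39_agUx

open Pool.Agent.Lib.MP_6b2d39_agUm Pool.Agent.Lib.MP_6b2d39_agCr

/-- UX16 (THEOREM P+). `B` of `bad_mid`; `N0` the maximum of the `N0` of `par_x B`, `bad_large`,
`bad_small B`, `bad_mid`, `bad_high`. `N < N0`: the constant is at least `exp (N0 ^ (1/6))`. `N ≥ N0`: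
a multiset of the first set is in one of the four finsets, otherwise `good_x` and `exact_x` with
`A = pA B N`, `m0 = pm0 N`, `m1 = pm1 N`, `M = pM N`, `t1 = pt1 N`, `t2 = pt2 B N`. (`tri` is
`fun m => (m + 1).choose 2` by definition; model: `Um/AllP.lean`.) -/
theorem almost_all_x : ∃ C : ℝ, ∀ N : ℕ, 1 ≤ N →
    (({s : Multiset ℕ | 0 ∉ s ∧ (s.map fun m => (m + 1).choose 2).sum = N ∧
      ∃ (n d : ℕ) (μ : Fin n → ℕ), Finset.univ.val.map μ = s ∧
        ¬ General (fun P => (Module.finrank ℂ (curves d μ P) : ℤ) = max (vd d μ) 0)}.ncard : ℕ) : ℝ) ≤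
      C * Real.exp (-(N : ℝ) ^ (1 / 6 : ℝ)) *
        ({s : Multiset ℕ | 0 ∉ s ∧ (s.map fun m => (m + 1).choose 2).sum = N}.ncard : ℕ) := by
  classical
  obtain ⟨B, hB, Nm, hm⟩ := bad_mid
  obtain ⟨Np, hp⟩ := par_x B hB
  obtain ⟨Nl, hl⟩ := bad_large
  obtain ⟨Ns, hsm⟩ := bad_small B hB
  obtain ⟨Nh, hh⟩ := bad_high
  set N0 : ℕ := Nm + Np + Nl + Ns + Nh with hN0
  refine ⟨Real.exp ((N0 : ℝ) ^ (1 / 6 : ℝ)), fun N hN => ?_⟩
  have hfin : {s : Multiset ℕ | 0 ∉ s ∧ (s.map fun m => (m + 1).choose 2).sum = N}.Finite :=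
    sy_finite N
  have hBe : {s : Multiset ℕ | 0 ∉ s ∧ (s.map fun m => (m + 1).choose 2).sum = N} =
      ((sy N : Finset (Multiset ℕ)) : Set (Multiset ℕ)) := by
    ext s
    rw [Finset.mem_coe, mem_sy]
    rfl
  rcases lt_or_ge N N0 with hlt | hge
  · have h1 : {s : Multiset ℕ | 0 ∉ s ∧ (s.map fun m => (m + 1).choose 2).sum = N ∧
      ∃ (n d : ℕ) (μ : Fin n → ℕ), Finset.univ.val.map μ = s ∧
        ¬ General (fun P => (Module.finrank ℂ (curves d μ P) : ℤ) = max (vd d μ) 0)}.ncard ≤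
        {s : Multiset ℕ | 0 ∉ s ∧ (s.map fun m => (m + 1).choose 2).sum = N}.ncard :=
      Set.ncard_le_ncard (fun s hs => ⟨hs.1, hs.2.1⟩) hfin
    have h2 : (N : ℝ) ^ (1 / 6 : ℝ) ≤ (N0 : ℝ) ^ (1 / 6 : ℝ) :=
      Real.rpow_le_rpow (Nat.cast_nonneg _) (by exact_mod_cast hlt.le) (by norm_num)
    have h3 : (1 : ℝ) ≤ Real.exp ((N0 : ℝ) ^ (1 / 6 : ℝ)) * Real.exp (-(N : ℝ) ^ (1 / 6 : ℝ)) := by
      rw [← Real.exp_add]
      exact Real.one_le_exp (by linarith)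
    exact (Nat.cast_le.2 h1).trans (le_mul_of_one_le_left (Nat.cast_nonneg _) h3)
  · have e1 : Nm ≤ N := by omega
    have e2 : Np ≤ N := by omega
    have e3 : Nl ≤ N := by omega
    have e4 : Ns ≤ N := by omega
    have e5 : Nh ≤ N := by omega
    have b1 := hl N e3
    have b2 := hsm N e4
    have b3 := hm N e1
    have b4 := hh N e5
    obtain ⟨p1, p2, p3, p4, p5⟩ := hp N e2
    set F1 := (sy N).filter fun π => ∃ k ∈ π, pM N + 1 ≤ k with hF1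
    set F2 := (sy N).filter fun π => ∃ m, pA B N ≤ m ∧ m ≤ pm0 N ∧ 2 * heavy π (pt1 N) m < m
      with hF2
    set F3 := (sy N).filter fun π => 2 * heavy π (pt2 B N) (pm0 N) < pm0 N with hF3
    set F4 := (sy N).filter fun π => N < 2 * above π (pm1 N) with hF4
    have h5 : {s : Multiset ℕ | 0 ∉ s ∧ (s.map fun m => (m + 1).choose 2).sum = N ∧
      ∃ (n d : ℕ) (μ : Fin n → ℕ), Finset.univ.val.map μ = s ∧
        ¬ General (fun P => (Module.finrank ℂ (curves d μ P) : ℤ) = max (vd d μ) 0)} ⊆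
        ((F1 ∪ F2 ∪ (F3 ∪ F4) : Finset (Multiset ℕ)) : Set (Multiset ℕ)) := by
      rintro s ⟨hs0, hsum, n, d, μ, hμ, hG⟩
      have hsy : s ∈ sy N := mem_sy.2 ⟨hs0, hsum⟩
      rw [Finset.mem_coe]
      by_contra hcon
      rw [Finset.mem_union, Finset.mem_union, Finset.mem_union] at hcon
      push Not at hcon
      obtain ⟨⟨c1, c2⟩, c3, c4⟩ := hcon
      have g1 : ∀ k ∈ s, k ≤ pM N := by
        intro k hk
        by_contra hk2
        exact c1 (Finset.mem_filter.2 ⟨hsy, k, hk, by omega⟩)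
      have g2 : ∀ m, pA B N ≤ m → m ≤ pm0 N → m ≤ 2 * heavy s (pt1 N) m := by
        intro m hm1 hm2
        by_contra hm3
        exact c2 (Finset.mem_filter.2 ⟨hsy, m, hm1, hm2, by omega⟩)
      have g3 : pm0 N ≤ 2 * heavy s (pt2 B N) (pm0 N) := by
        by_contra hm3
        exact c3 (Finset.mem_filter.2 ⟨hsy, by omega⟩)
      have g4 : 2 * above s (pm1 N) ≤ N := by
        by_contra hm3
        exact c4 (Finset.mem_filter.2 ⟨hsy, by omega⟩)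
      exact hG (exact_x hsy hN (by omega) p2 g1 (good_x hsy g2 g3 g4 p3 p4 p5) d μ hμ)
    have h7 := Set.ncard_le_ncard h5 (Finset.finite_toSet _)
    rw [Set.ncard_coe_finset] at h7
    rw [hBe, Set.ncard_coe_finset]
    have h8 : (F1 ∪ F2 ∪ (F3 ∪ F4)).card ≤ F1.card + F2.card + (F3.card + F4.card) :=
      (Finset.card_union_le _ _).trans
        (Nat.add_le_add (Finset.card_union_le _ _) (Finset.card_union_le _ _))
    have h9 : (({s : Multiset ℕ | 0 ∉ s ∧ (s.map fun m => (m + 1).choose 2).sum = N ∧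
      ∃ (n d : ℕ) (μ : Fin n → ℕ), Finset.univ.val.map μ = s ∧
        ¬ General (fun P => (Module.finrank ℂ (curves d μ P) : ℤ) = max (vd d μ) 0)}.ncard : ℕ) :
          ℝ) ≤ (F1.card : ℝ) + F2.card + (F3.card + F4.card) := by
      exact_mod_cast h7.trans h8
    have h10 : (1 : ℝ) ≤ Real.exp ((N0 : ℝ) ^ (1 / 6 : ℝ)) :=
      Real.one_le_exp (Real.rpow_nonneg (Nat.cast_nonneg _) _)
    have h11 : (0 : ℝ) ≤ Real.exp (-(N : ℝ) ^ (1 / 6 : ℝ)) * (((sy N).card : ℕ) : ℝ) :=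
      mul_nonneg (Real.exp_pos _).le (Nat.cast_nonneg _)
    have h12 : Real.exp (-(N : ℝ) ^ (1 / 6 : ℝ)) * (((sy N).card : ℕ) : ℝ) ≤
        Real.exp ((N0 : ℝ) ^ (1 / 6 : ℝ)) *
          (Real.exp (-(N : ℝ) ^ (1 / 6 : ℝ)) * (((sy N).card : ℕ) : ℝ)) :=
      le_mul_of_one_le_left h11 h10
    rw [mul_assoc]
    refine le_trans ?_ h12
    refine h9.trans ?_
    have b1' : (F1.card : ℝ) ≤
        1 / 4 * Real.exp (-(N : ℝ) ^ (1 / 6 : ℝ)) * (((sy N).card : ℕ) : ℝ) := b1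
    have b2' : (F2.card : ℝ) ≤
        1 / 4 * Real.exp (-(N : ℝ) ^ (1 / 6 : ℝ)) * (((sy N).card : ℕ) : ℝ) := b2
    have b3' : (F3.card : ℝ) ≤
        1 / 4 * Real.exp (-(N : ℝ) ^ (1 / 6 : ℝ)) * (((sy N).card : ℕ) : ℝ) := b3
    have b4' : (F4.card : ℝ) ≤
        1 / 4 * Real.exp (-(N : ℝ) ^ (1 / 6 : ℝ)) * (((sy N).card : ℕ) : ℝ) := b4
    linarith

end Pool.Agent.Lib.MP_6b2d39_agUx
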