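import Pool.Agent.Lib.MP_6b2d39_agUm.Half

/-!
THEOREM P+: the exceptional multisets have proportion `≤ C exp (-N ^ (1/6))`. Parameters,
`u = N ^ (1 / 6)`.
-/

set_option autoImplicit false

namespace Pool.Agent.Lib.MP_6b2d39_agUx

open Pool.Agent.Lib.MP_6b2d39_agUm

/-- number of `2 ≤ k ≤ m` whose points in `s` have at least `t` conditions -/
def heavy (s : Multiset ℕ) (t m : ℕ) : ℕ :=
  ((Finset.Icc 2 m).filter fun k => t ≤ s.count k * tri k).card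

/-- conditions of the points of multiplicity `> r` -/
def above (s : Multiset ℕ) (r : ℕ) : ℕ := ((s.filter fun k => r < k).map tri).sum

/-- `A = u / (10 ^ 9 B ^ 2)` -/
noncomputable def pA (B N : ℕ) : ℕ := ⌊(N : ℝ) ^ (1 / 6 : ℝ) / (10 ^ 9 * (B : ℝ) ^ 2)⌋₊

/-- `m0 = u ^ (7 / 4)` -/
noncomputable def pm0 (N : ℕ) : ℕ := ⌊(N : ℝ) ^ (7 / 24 : ℝ)⌋₊

/-- `m1 = u ^ (9 / 4)` -/
noncomputable def pm1 (N : ℕ) : ℕ := ⌈(N : ℝ) ^ (3 / 8 : ℝ)⌉₊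

/-- `M = 8 u ^ (5 / 2)` -/
noncomputable def pM (N : ℕ) : ℕ := ⌈8 * (N : ℝ) ^ (5 / 12 : ℝ)⌉₊

/-- `t1 = u ^ (7 / 2)` -/
noncomputable def pt1 (N : ℕ) : ℕ := ⌈(N : ℝ) ^ (7 / 12 : ℝ)⌉₊

/-- `t2 = u ^ 4 / B` -/
noncomputable def pt2 (B N : ℕ) : ℕ := ⌈(N : ℝ) ^ (2 / 3 : ℝ) / B⌉₊

end Pool.Agent.Lib.MP_6b2d39_agUx
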