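import Pool.Agent.Lib.MP_6b2d39_agUx.DefX
import Pool.Agent.Lib.MP_6b2d39_agUe.MainM

set_option autoImplicit false

namespace Pool.Agent.Lib.MP_6b2d39_agUx

open Pool.Agent.Lib.MP_6b2d39_agUm Pool.Agent.Lib.MP_6b2d39_agUe Pool.Agent.Lib.MP_6b2d39_agCr

private theorem gx_tri_le_sq (k : ℕ) : tri k ≤ k ^ 2 := by
  have h := two_tri k
  nlinarith [Nat.zero_le k, sq_nonneg ((k : ℤ) - 1), Nat.le_self_pow (two_ne_zero) k]

private theorem gx_sq_le (k : ℕ) : k ^ 2 ≤ 2 * tri k := by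
  have h := two_tri k
  nlinarith [Nat.zero_le k]

/-- the part of the `k ≤ m` dominates the conditions of `Icc 2 m` -/
private theorem gx_sum_ge (π : Multiset ℕ) (m : ℕ) :
    ∑ k ∈ Finset.Icc 2 m, π.count k * tri k ≤
      ((π.filter fun k => k ≤ m).map fun k => k ^ 2).sum := by
  rw [Finset.sum_multiset_map_count]
  have h1 : ∑ k ∈ Finset.Icc 2 m, π.count k * tri k ≤
      ∑ k ∈ Finset.Icc 2 m, (π.filter fun k => k ≤ m).count k • k ^ 2 := by
    apply Finset.sum_le_sum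
    intro k hk
    rw [Multiset.count_filter_of_pos (p := fun k => k ≤ m) (Finset.mem_Icc.1 hk).2, smul_eq_mul]
    exact Nat.mul_le_mul_left _ (gx_tri_le_sq k)
  refine le_trans h1 (Finset.sum_le_sum_of_ne_zero ?_)
  intro k _ hk
  rw [Multiset.mem_toFinset]
  by_contra hc
  apply hk
  rw [Multiset.count_eq_zero_of_notMem hc, zero_smul]

private theorem gx_heavy (π : Multiset ℕ) (t m : ℕ) :
    heavy π t m * t ≤ ((π.filter fun k => k ≤ m).map fun k => k ^ 2).sum := by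
  refine le_trans ?_ (gx_sum_ge π m)
  have h1 := Finset.card_nsmul_le_sum
    ((Finset.Icc 2 m).filter fun k => t ≤ π.count k * tri k) (fun k => π.count k * tri k) t
    (fun k hk => (Finset.mem_filter.1 hk).2)
  rw [smul_eq_mul] at h1
  exact le_trans h1 (Finset.sum_le_sum_of_subset (Finset.filter_subset _ _))

private theorem gx_mono (π : Multiset ℕ) {m m' : ℕ} (h : m ≤ m') :
    ((π.filter fun k => k ≤ m).map fun k => k ^ 2).sum ≤
      ((π.filter fun k => k ≤ m').map fun k => k ^ 2).sum := by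
  have h1 : (π.filter fun k => k ≤ m) ≤ (π.filter fun k => k ≤ m') :=
    Multiset.monotone_filter_right π (fun k hk => le_trans hk h)
  obtain ⟨u, hu⟩ := Multiset.le_iff_exists_add.1 (Multiset.map_le_map (f := fun k => k ^ 2) h1)
  rw [hu, Multiset.sum_add]
  exact Nat.le_add_right _ _

private theorem gx_all {N : ℕ} {π : Multiset ℕ} (hπ : π ∈ sy N) :
    (π.map fun k => k ^ 2).sum ≤ 2 * N := by
  have h := (mem_sy.1 hπ).2
  rw [← h, ← Multiset.sum_map_mul_left]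
  exact Multiset.sum_map_le_sum_map _ _ (fun k _ => gx_sq_le k)

private theorem gx_above {N : ℕ} {π : Multiset ℕ} (hπ : π ∈ sy N) (r : ℕ) :
    N ≤ ((π.filter fun k => k ≤ r).map fun k => k ^ 2).sum + above π r := by
  have h := (mem_sy.1 hπ).2
  have h2 : (π.map tri).sum = ((π.filter fun k => k ≤ r).map tri).sum + above π r := by
    have h3 := Multiset.filter_add_not (fun k => k ≤ r) π
    have h4 : (π.filter fun k => ¬ k ≤ r) = π.filter fun k => r < k :=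
      Multiset.filter_congr (fun k _ => by rw [not_le])
    unfold above
    rw [← h4, ← Multiset.sum_add, ← Multiset.map_add, h3]
  rw [← h, h2]
  exact Nat.add_le_add_right (Multiset.sum_map_le_sum_map _ _ (fun k _ => gx_tri_le_sq k)) _

/-- UX8. `S = ∑ k ^ 2 ≤ 2 N`, `S m` the part of the `k ≤ m`. `A ≤ m ≤ m0`:
`2 S m ≥ 2 ∑ k ∈ Icc 2 m, count k * tri k ≥ m t1`; `m0 ≤ m ≤ m1`: `2 S m ≥ 2 S m0 ≥ m0 t2`;
`m1 ≤ m ≤ M`: `2 S m ≥ 2 (N - above π m1) ≥ N`; with `n1`, `n2`, `n3` in each case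
`4 (S m) ^ 2 ≥ 8 * 10 ^ 6 m ^ 2 A N ≥ 4 * 10 ^ 6 m ^ 2 A S`. -/
theorem good_x {N A m0 m1 M t1 t2 : ℕ} {π : Multiset ℕ} (hπ : π ∈ sy N)
    (g2 : ∀ m, A ≤ m → m ≤ m0 → m ≤ 2 * heavy π t1 m) (g3 : m0 ≤ 2 * heavy π t2 m0)
    (g4 : 2 * above π m1 ≤ N) (n1 : 8 * 10 ^ 6 * A * N ≤ t1 ^ 2)
    (n2 : 8 * 10 ^ 6 * m1 ^ 2 * A * N ≤ m0 ^ 2 * t2 ^ 2) (n3 : 8 * 10 ^ 6 * M ^ 2 * A ≤ N) :
    ∀ m, A ≤ m → m ≤ M → 10 ^ 6 * m ^ 2 * A * (π.map fun k => k ^ 2).sum ≤
      ((π.filter fun k => k ≤ m).map fun k => k ^ 2).sum ^ 2 := by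
  intro m hA hM
  have hS := gx_all hπ
  have key : 8 * 10 ^ 6 * m ^ 2 * A * N ≤
      (2 * ((π.filter fun k => k ≤ m).map fun k => k ^ 2).sum) ^ 2 := by
    rcases le_total m m0 with h0 | h0
    · have h1 : m * t1 ≤ 2 * ((π.filter fun k => k ≤ m).map fun k => k ^ 2).sum := by
        calc m * t1 ≤ 2 * heavy π t1 m * t1 := Nat.mul_le_mul_right _ (g2 m hA h0)
          _ = 2 * (heavy π t1 m * t1) := by ring
          _ ≤ _ := Nat.mul_le_mul_left _ (gx_heavy π t1 m)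
      calc 8 * 10 ^ 6 * m ^ 2 * A * N = m ^ 2 * (8 * 10 ^ 6 * A * N) := by ring
        _ ≤ m ^ 2 * t1 ^ 2 := Nat.mul_le_mul_left _ n1
        _ = (m * t1) ^ 2 := by ring
        _ ≤ _ := Nat.pow_le_pow_left h1 2
    · rcases le_total m m1 with h1 | h1
      · have h2 : m0 * t2 ≤ 2 * ((π.filter fun k => k ≤ m).map fun k => k ^ 2).sum := by
          calc m0 * t2 ≤ 2 * heavy π t2 m0 * t2 := Nat.mul_le_mul_right _ g3
            _ = 2 * (heavy π t2 m0 * t2) := by ring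
            _ ≤ _ := Nat.mul_le_mul_left _ (le_trans (gx_heavy π t2 m0) (gx_mono π h0))
        calc 8 * 10 ^ 6 * m ^ 2 * A * N ≤ 8 * 10 ^ 6 * m1 ^ 2 * A * N := by
              gcongr
          _ ≤ m0 ^ 2 * t2 ^ 2 := n2
          _ = (m0 * t2) ^ 2 := by ring
          _ ≤ _ := Nat.pow_le_pow_left h2 2
      · have h2 : N ≤ 2 * ((π.filter fun k => k ≤ m).map fun k => k ^ 2).sum := by
          have h3 := gx_above hπ m1
          have h4 := gx_mono π h1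
          omega
        calc 8 * 10 ^ 6 * m ^ 2 * A * N ≤ 8 * 10 ^ 6 * M ^ 2 * A * N := by
              gcongr
          _ ≤ N * N := Nat.mul_le_mul_right _ n3
          _ = N ^ 2 := by ring
          _ ≤ _ := Nat.pow_le_pow_left h2 2
  have h5 : 4 * (10 ^ 6 * m ^ 2 * A * (π.map fun k => k ^ 2).sum) ≤
      4 * ((π.filter fun k => k ≤ m).map fun k => k ^ 2).sum ^ 2 := by
    calc 4 * (10 ^ 6 * m ^ 2 * A * (π.map fun k => k ^ 2).sum)
        ≤ 4 * (10 ^ 6 * m ^ 2 * A * (2 * N)) :=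
          Nat.mul_le_mul_left _ (Nat.mul_le_mul_left _ hS)
      _ = 8 * 10 ^ 6 * m ^ 2 * A * N := by ring
      _ ≤ _ := key
      _ = _ := by ring
  exact Nat.le_of_mul_le_mul_left h5 (by norm_num)

/-- UX9. `exact_m` for `μ` (`∑ i, μ i ^ 2 = (π.map fun k => k ^ 2).sum` and so on). -/
theorem exact_x {N A M : ℕ} {π : Multiset ℕ} (hπ : π ∈ sy N) (hN : 1 ≤ N) (hA : 1 ≤ A) (hAM : A ≤ M)
    (g1 : ∀ k ∈ π, k ≤ M)
    (h : ∀ m, A ≤ m → m ≤ M → 10 ^ 6 * m ^ 2 * A * (π.map fun k => k ^ 2).sum ≤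
      ((π.filter fun k => k ≤ m).map fun k => k ^ 2).sum ^ 2)
    {n : ℕ} (d : ℕ) (μ : Fin n → ℕ) (hμ : Finset.univ.val.map μ = π) :
    General (fun P => (Module.finrank ℂ (curves d μ P) : ℤ) = max (vd d μ) 0) := by
  have e1 : ∑ i, μ i ^ 2 = (π.map fun k => k ^ 2).sum := by
    rw [← hμ, Multiset.map_map]
    rfl
  have e2 : ∀ m, ∑ i ∈ Finset.univ.filter (fun i => μ i ≤ m), μ i ^ 2 =
      ((π.filter fun k => k ≤ m).map fun k => k ^ 2).sum := by
    intro m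
    rw [← hμ, Multiset.filter_map, Multiset.map_map]
    rfl
  have hmem : ∀ i, μ i ∈ π := fun i => by
    rw [← hμ]
    exact Multiset.mem_map_of_mem μ (Finset.mem_univ i)
  have hsum : 0 < ∑ i, μ i ^ 2 := by
    rw [e1]
    have h1 : N ≤ (π.map fun k => k ^ 2).sum := by
      rw [← (mem_sy.1 hπ).2]
      exact Multiset.sum_map_le_sum_map _ _ (fun k _ => gx_tri_le_sq k)
    omega
  refine exact_m hA hAM (fun i => g1 _ (hmem i)) hsum (fun m h1 h2 => ?_) d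
  rw [e1, e2 m]
  exact h m h1 h2

end Pool.Agent.Lib.MP_6b2d39_agUx
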