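import Pool.Agent.Lib.MP_6b2d39_agUx.DefX

set_option autoImplicit false

namespace Pool.Agent.Lib.MP_6b2d39_agUx

open Pool.Agent.Lib.MP_6b2d39_agUm

private theorem exists_fun {N : ℕ} (m : Multiset ℕ) (hb : ∀ x ∈ m, x ≤ N) :
    ∃ g : Fin (Multiset.card m) → Fin (N + 1),
      (Finset.univ : Finset (Fin (Multiset.card m))).val.map (fun i => (g i : ℕ)) = m := by
  induction m using Quotient.inductionOn with
  | _ L =>
    refine ⟨fun i => ⟨L.get i, Nat.lt_succ_of_le (hb _ (List.get_mem L i))⟩, ?_⟩
    rw [Fin.univ_val_map]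
    exact congrArg (fun l : List ℕ => (l : Multiset ℕ)) (List.ofFn_get L)

private theorem high_image {N r : ℕ} (hr : 1 ≤ r) {s : Multiset ℕ} (hs : s ∈ sy N) :
    ∃ g : Fin (N / tri r) → Fin (N + 1),
      ((Finset.univ : Finset (Fin (N / tri r))).val.map (fun i => (g i : ℕ))).filter
        (fun x => x ≠ 0) = s.filter fun k => r < k := by
  set h : Multiset ℕ := s.filter fun k => r < k with hh
  have hhs : h ≤ s := Multiset.filter_le _ _
  have htr : 1 ≤ tri r := hr.trans (le_tri r)
  have hsum : (h.map tri).sum ≤ N := by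
    obtain ⟨t, ht⟩ := Multiset.le_iff_exists_add.1 hhs
    have h1 := (mem_sy.1 hs).2
    rw [ht, Multiset.map_add, Multiset.sum_add] at h1
    omega
  have hcard : Multiset.card h * tri r ≤ N := by
    have h1 : (h.map fun _ => tri r).sum ≤ (h.map tri).sum := by
      apply Multiset.sum_map_le_sum_map
      intro k hk
      exact tri_mono (Multiset.mem_filter.1 hk).2.le
    rw [Multiset.map_const', Multiset.sum_replicate, smul_eq_mul] at h1
    exact h1.trans hsum
  have hq : Multiset.card h ≤ N / tri r := (Nat.le_div_iff_mul_le htr).2 hcard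
  have hc : Multiset.card (h + Multiset.replicate (N / tri r - Multiset.card h) 0) = N / tri r := by
    rw [Multiset.card_add, Multiset.card_replicate]
    omega
  have hb : ∀ x ∈ h + Multiset.replicate (N / tri r - Multiset.card h) 0, x ≤ N := by
    intro x hx
    rcases Multiset.mem_add.1 hx with h1 | h1
    · exact (le_tri x).trans (tri_le_of_mem hs (Multiset.mem_of_le hhs h1))
    · rw [Multiset.eq_of_mem_replicate h1]
      exact Nat.zero_le _
  obtain ⟨g, hg⟩ := exists_fun _ hb
  have key : ∀ (q : ℕ) (m : Multiset ℕ), (∃ g : Fin (Multiset.card m) → Fin (N + 1),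
      (Finset.univ : Finset (Fin (Multiset.card m))).val.map (fun i => (g i : ℕ)) = m) →
      Multiset.card m = q → ∃ g : Fin q → Fin (N + 1),
      (Finset.univ : Finset (Fin q)).val.map (fun i => (g i : ℕ)) = m := by
    intro q m hm hq
    subst hq
    exact hm
  obtain ⟨g', hg'⟩ := key _ _ ⟨g, hg⟩ hc
  refine ⟨g', ?_⟩
  rw [hg', Multiset.filter_add, Multiset.filter_eq_self.2, Multiset.filter_eq_nil.2, add_zero]
  · intro a ha h1
    exact h1 (Multiset.eq_of_mem_replicate ha)
  · intro a ha h1
    rw [h1] at ha
    exact absurd (Multiset.mem_filter.1 ha).2 (Nat.not_lt_zero r)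

/-- UX7. `π = h + l`, `h` the elements `> r`: `card h * tri r ≤ N`, elements `≤ N`, so at most
`(N + 1) ^ (N / tri r)` multisets `h` (image of the functions `Fin (N / tri r) → Fin (N + 1)`, zeros
removed); `l ∈ sy (N - above π r)`, `N - above π r ≤ N / 2` (`card_mono`). -/
theorem high_mass {N r : ℕ} (hr : 1 ≤ r) :
    ((sy N).filter fun π => N < 2 * above π r).card ≤
      (N + 1) ^ (N / tri r) * (sy (N / 2)).card := by
  classical
  have hmul := Finset.card_le_mul_card_image
    (f := fun s : Multiset ℕ => s.filter fun k => r < k)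
    ((sy N).filter fun s => N < 2 * above s r) (sy (N / 2)).card ?_
  · refine hmul.trans ?_
    rw [mul_comm]
    refine Nat.mul_le_mul_right _ ?_
    have h1 : (((sy N).filter fun s => N < 2 * above s r).image
        fun s : Multiset ℕ => s.filter fun k => r < k) ⊆
        (Finset.univ : Finset (Fin (N / tri r) → Fin (N + 1))).image fun g =>
          ((Finset.univ : Finset (Fin (N / tri r))).val.map (fun i => (g i : ℕ))).filter
            (fun x => x ≠ 0) := by
      intro h hh
      obtain ⟨s, hs, rfl⟩ := Finset.mem_image.1 hh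
      obtain ⟨g, hg⟩ := high_image hr (Finset.mem_filter.1 hs).1
      exact Finset.mem_image.2 ⟨g, Finset.mem_univ _, hg⟩
    refine (Finset.card_le_card h1).trans (Finset.card_image_le.trans ?_)
    rw [Finset.card_univ, Fintype.card_fun, Fintype.card_fin, Fintype.card_fin]
  · intro h hh
    obtain ⟨s0, hs0, hs0h⟩ := Finset.mem_image.1 hh
    rw [Finset.mem_filter] at hs0
    have hab : N < 2 * (h.map tri).sum := by
      rw [← hs0h]
      exact hs0.2
    refine le_trans ?_ (card_mono (N := N - (h.map tri).sum) (N' := N / 2) (by omega))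
    refine Finset.card_le_card_of_injOn (fun s => s.filter fun k => ¬ r < k) ?_ ?_
    · intro s hs
      rw [Finset.mem_coe, Finset.mem_filter, Finset.mem_filter] at hs
      obtain ⟨⟨hs1, _⟩, hs3⟩ := hs
      have h2 := mem_sy.1 hs1
      rw [Finset.mem_coe, mem_sy]
      refine ⟨fun h3 => h2.1 (Multiset.mem_of_mem_filter h3), ?_⟩
      have h4 : s.filter (fun k => r < k) + s.filter (fun k => ¬ r < k) = s :=
        Multiset.filter_add_not _ _
      have h5 : ((s.filter (fun k => r < k) + s.filter (fun k => ¬ r < k)).map tri).sum = N := by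
        rw [h4]
        exact h2.2
      rw [Multiset.map_add, Multiset.sum_add] at h5
      have h6 : s.filter (fun k => r < k) = h := hs3
      rw [h6] at h5
      show ((s.filter fun k => ¬ r < k).map tri).sum = N - (h.map tri).sum
      omega
    · intro s hs t ht hst
      rw [Finset.mem_coe, Finset.mem_filter] at hs ht
      have h4 : s.filter (fun k => r < k) + s.filter (fun k => ¬ r < k) = s :=
        Multiset.filter_add_not _ _
      have h5 : t.filter (fun k => r < k) + t.filter (fun k => ¬ r < k) = t :=
        Multiset.filter_add_not _ _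
      have h6 : s.filter (fun k => r < k) = h := hs.2
      have h7 : t.filter (fun k => r < k) = h := ht.2
      have h8 : s.filter (fun k => ¬ r < k) = t.filter (fun k => ¬ r < k) := hst
      rw [← h4, ← h5, h6, h7, h8]

end Pool.Agent.Lib.MP_6b2d39_agUx
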