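import Pool.Agent.Lib.MP_6b2d39_agUx.DefX

set_option autoImplicit false

namespace Pool.Agent.Lib.MP_6b2d39_agUx

open Pool.Agent.Lib.MP_6b2d39_agUm

private theorem tail_step {N t B k : ℕ} (hk : 2 ≤ k) (hkt : tri k ≤ t) (J : Finset ℕ)
    (hJ : ∀ j ∈ J, 2 ≤ j) (hkJ : k ∉ J) :
    B * ((sy N).filter fun π => ∀ j ∈ insert k J, π.count j * tri j < t).card ≤
      ((sy (N + 2 * B * t)).filter fun π => ∀ j ∈ J, π.count j * tri j < t).card := by
  classical
  have htk : 1 ≤ tri k := le_trans (by omega) (le_tri k)
  have ht1 : tri 1 = 1 := rfl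
  obtain ⟨a, ha⟩ : ∃ a, a = (t + tri k - 1) / tri k := ⟨_, rfl⟩
  have ha1 : t ≤ a * tri k := by
    have h1 : t + tri k - 1 < a * tri k + tri k := by rw [ha]; exact Nat.lt_div_mul_add htk
    omega
  have ha2 : a * tri k ≤ 2 * t := by
    have h1 : a * tri k ≤ t + tri k - 1 := by rw [ha]; exact Nat.div_mul_le_self _ _
    omega
  have hlt : ∀ c : ℕ, c * tri k < t → c < a := by
    intro c hc
    by_contra h
    have h1 : a * tri k ≤ c * tri k := Nat.mul_le_mul_right _ (not_lt.1 h)
    omega
  have hr : ∀ b < B, b * a * tri k ≤ 2 * B * t := by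
    intro b hb
    calc b * a * tri k = b * (a * tri k) := by ring
      _ ≤ B * (2 * t) := Nat.mul_le_mul hb.le ha2
      _ = 2 * B * t := by ring
  have hk1 : k ≠ 1 := by omega
  have hcard : B * ((sy N).filter fun π => ∀ j ∈ insert k J, π.count j * tri j < t).card =
      (Finset.range B ×ˢ
        ((sy N).filter fun π => ∀ j ∈ insert k J, π.count j * tri j < t)).card := by
    rw [Finset.card_product, Finset.card_range]
  rw [hcard]
  have hcount : ∀ (b r : ℕ) (π : Multiset ℕ),
      (π + Multiset.replicate (b * a) k + Multiset.replicate r 1).count k =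
        π.count k + b * a := by
    intro b r π
    rw [Multiset.count_add, Multiset.count_add, Multiset.count_replicate_self,
      Multiset.count_replicate, if_neg (fun h => hk1 h.symm), add_zero]
  refine Finset.card_le_card_of_injOn
    (fun x => x.2 + Multiset.replicate (x.1 * a) k +
      Multiset.replicate (2 * B * t - x.1 * a * tri k) 1) ?_ ?_
  · rintro ⟨b, π⟩ hx
    rw [Finset.mem_coe, Finset.mem_product, Finset.mem_range, Finset.mem_filter, mem_sy] at hx
    obtain ⟨hb, ⟨h0, hsum⟩, hc⟩ := hx
    rw [Finset.mem_coe, Finset.mem_filter, mem_sy]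
    refine ⟨⟨?_, ?_⟩, ?_⟩
    · intro h
      rw [Multiset.mem_add, Multiset.mem_add] at h
      rcases h with (h | h) | h
      · exact h0 h
      · have := Multiset.eq_of_mem_replicate h
        omega
      · have := Multiset.eq_of_mem_replicate h
        omega
    · have h1 := hr b hb
      rw [Multiset.map_add, Multiset.map_add, Multiset.sum_add, Multiset.sum_add,
        Multiset.map_replicate, Multiset.sum_replicate, Multiset.map_replicate,
        Multiset.sum_replicate, smul_eq_mul, smul_eq_mul, ht1, hsum, mul_one]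
      dsimp only
      omega
    · intro j hj
      have hj2 := hJ j hj
      have hjk : j ≠ k := fun h => hkJ (h ▸ hj)
      have h1 : (π + Multiset.replicate (b * a) k +
          Multiset.replicate (2 * B * t - b * a * tri k) 1).count j = π.count j := by
        rw [Multiset.count_add, Multiset.count_add, Multiset.count_replicate,
          Multiset.count_replicate, if_neg (fun h => hjk h.symm),
          if_neg (fun h : 1 = j => by omega), add_zero, add_zero]
      have h2 := hc j (Finset.mem_insert_of_mem hj)
      dsimp only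
      rw [h1]
      exact h2
  · rintro ⟨b, π⟩ hx ⟨b', π'⟩ hx' hxx
    rw [Finset.mem_coe, Finset.mem_product, Finset.mem_range, Finset.mem_filter] at hx hx'
    dsimp only at hx hx' hxx
    have h1 := hlt _ (hx.2.2 k (Finset.mem_insert_self _ _))
    have h2 := hlt _ (hx'.2.2 k (Finset.mem_insert_self _ _))
    have h3 : π.count k + b * a = π'.count k + b' * a := by
      rw [← hcount b (2 * B * t - b * a * tri k) π, hxx, hcount]
    have h4 : b = b' := by
      rcases lt_trichotomy b b' with h | h | h
      · have h5 : (b + 1) * a ≤ b' * a := Nat.mul_le_mul_right _ h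
        have h6 : (b + 1) * a = b * a + a := by ring
        omega
      · exact h
      · have h5 : (b' + 1) * a ≤ b * a := Nat.mul_le_mul_right _ h
        have h6 : (b' + 1) * a = b' * a + a := by ring
        omega
    subst h4
    have h5 := add_right_cancel (add_right_cancel hxx)
    rw [h5]

/-- UX5 (injection). `a k = (t + tri k - 1) / tri k` (ceiling), so `t ≤ a k * tri k ≤ 2 t`. For `π` in
the set and `b : I → Fin B` (`Finset.pi` / functions), the multiset
`π + ∑ k ∈ I, replicate (b k * a k) k + replicate r 1`, `r = 2 * I.card * B * t - ∑ b k * a k * tri k`,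
is in `sy (N + 2 * I.card * B * t)`. It determines `b` and `π`: `π.count k < a k` for `k ∈ I`, so
`b k` is its count of `k` divided by `a k`. -/
theorem tail_inj {N t B : ℕ} (hB : 1 ≤ B) (I : Finset ℕ) (hI : ∀ k ∈ I, 2 ≤ k ∧ tri k ≤ t) :
    B ^ I.card * ((sy N).filter fun π => ∀ k ∈ I, π.count k * tri k < t).card ≤
      (sy (N + 2 * I.card * B * t)).card := by
  classical
  induction I using Finset.induction_on generalizing N with
  | empty => simp
  | insert k J hkJ ih =>
    have hk := hI k (Finset.mem_insert_self _ _)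
    have hJ : ∀ j ∈ J, 2 ≤ j ∧ tri j ≤ t := fun j hj => hI j (Finset.mem_insert_of_mem hj)
    have h1 := tail_step (N := N) (B := B) hk.1 hk.2 J (fun j hj => (hJ j hj).1) hkJ
    have h2 := ih (N := N + 2 * B * t) hJ
    rw [Finset.card_insert_of_notMem hkJ]
    have h3 : N + 2 * B * t + 2 * J.card * B * t = N + 2 * (J.card + 1) * B * t := by ring
    rw [h3] at h2
    calc B ^ (J.card + 1) *
          ((sy N).filter fun π => ∀ j ∈ insert k J, π.count j * tri j < t).card
        = B ^ J.card * (B *
          ((sy N).filter fun π => ∀ j ∈ insert k J, π.count j * tri j < t).card) := by ring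
      _ ≤ B ^ J.card *
          ((sy (N + 2 * B * t)).filter fun π => ∀ j ∈ J, π.count j * tri j < t).card :=
        Nat.mul_le_mul_left _ h1
      _ ≤ _ := h2

/-- UX6. For `π` in the set, `{k ∈ Icc 2 m | π.count k * tri k < t}` has at least `m / 4` elements;
take a subset `I` of exactly `m / 4` elements: union bound over at most `2 ^ m` subsets, `tail_inj`,
`card_mono`. -/
theorem tail_union {N t B m : ℕ} (hB : 1 ≤ B) (hm : 4 ≤ m) (ht : tri m ≤ t) :
    B ^ (m / 4) * ((sy N).filter fun π => 2 * heavy π t m < m).card ≤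
      2 ^ m * (sy (N + 2 * m * B * t)).card := by
  classical
  have hsub : ((sy N).filter fun π => 2 * heavy π t m < m) ⊆
      (Finset.powersetCard (m / 4) (Finset.Icc 2 m)).biUnion
        (fun I => (sy N).filter fun π => ∀ k ∈ I, π.count k * tri k < t) := by
    intro π hπ
    rw [Finset.mem_filter] at hπ
    obtain ⟨hπ1, hπ2⟩ := hπ
    have hsum := Finset.card_filter_add_card_filter_not (s := Finset.Icc 2 m)
      (fun k => t ≤ π.count k * tri k)
    rw [Nat.card_Icc] at hsum
    unfold heavy at hπ2
    have hle : m / 4 ≤ ((Finset.Icc 2 m).filter fun k => ¬ t ≤ π.count k * tri k).card := by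
      omega
    obtain ⟨I, hI1, hI2⟩ := Finset.exists_subset_card_eq hle
    rw [Finset.mem_biUnion]
    refine ⟨I, Finset.mem_powersetCard.2 ⟨hI1.trans (Finset.filter_subset _ _), hI2⟩, ?_⟩
    rw [Finset.mem_filter]
    refine ⟨hπ1, fun k hk => ?_⟩
    have := (Finset.mem_filter.1 (hI1 hk)).2
    omega
  have hcard : ∀ I ∈ Finset.powersetCard (m / 4) (Finset.Icc 2 m),
      B ^ (m / 4) * ((sy N).filter fun π => ∀ k ∈ I, π.count k * tri k < t).card ≤
        (sy (N + 2 * m * B * t)).card := by
    intro I hI
    rw [Finset.mem_powersetCard] at hI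
    have h1 := tail_inj (N := N) hB I (fun k hk => by
      have h2 := Finset.mem_Icc.1 (hI.1 hk)
      exact ⟨h2.1, (tri_mono h2.2).trans ht⟩)
    rw [hI.2] at h1
    refine h1.trans (card_mono ?_)
    have h3 : 2 * (m / 4) * B * t ≤ 2 * m * B * t := by
      apply Nat.mul_le_mul_right
      apply Nat.mul_le_mul_right
      omega
    omega
  calc B ^ (m / 4) * ((sy N).filter fun π => 2 * heavy π t m < m).card
      ≤ B ^ (m / 4) * ∑ I ∈ Finset.powersetCard (m / 4) (Finset.Icc 2 m),
          ((sy N).filter fun π => ∀ k ∈ I, π.count k * tri k < t).card :=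
        Nat.mul_le_mul_left _ ((Finset.card_le_card hsub).trans Finset.card_biUnion_le)
    _ = ∑ I ∈ Finset.powersetCard (m / 4) (Finset.Icc 2 m),
          B ^ (m / 4) * ((sy N).filter fun π => ∀ k ∈ I, π.count k * tri k < t).card :=
        Finset.mul_sum _ _ _
    _ ≤ ∑ I ∈ Finset.powersetCard (m / 4) (Finset.Icc 2 m), (sy (N + 2 * m * B * t)).card :=
        Finset.sum_le_sum hcard
    _ = (m + 1 - 2).choose (m / 4) * (sy (N + 2 * m * B * t)).card := by
        rw [Finset.sum_const, Finset.card_powersetCard, Nat.card_Icc, smul_eq_mul]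
    _ ≤ 2 ^ m * (sy (N + 2 * m * B * t)).card := by
        apply Nat.mul_le_mul_right
        exact (Nat.choose_le_two_pow _ _).trans (Nat.pow_le_pow_right (by norm_num) (by omega))

end Pool.Agent.Lib.MP_6b2d39_agUx
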