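import Pool.Agent.Lib.MP_6b2d39_agUm.Sy

set_option autoImplicit false

namespace Pool.Agent.Lib.MP_6b2d39_agUx

open Pool.Agent.Lib.MP_6b2d39_agUm

/-- the weights -/
private noncomputable def tw (s : ℕ) (β Λ : ℝ) (k j : ℕ) : ℝ :=
  Real.exp (-(β * tri k * j)) * (if s ≤ k ∧ j ≠ 0 then Λ⁻¹ else 1)

private theorem tw_nonneg {s : ℕ} {β Λ : ℝ} (hΛ : 1 ≤ Λ) (k j : ℕ) : 0 ≤ tw s β Λ k j := by
  unfold tw
  have h0 : (0 : ℝ) < Λ := by linarith
  split_ifs
  · positivity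
  · positivity

private theorem tw_geom {x : ℝ} (hx : 0 < x) (N : ℕ) :
    ∑ j ∈ Finset.range N, Real.exp (-(x * ((j + 1 : ℕ) : ℝ))) ≤ 1 / x := by
  set q := Real.exp (-x) with hq
  have hq0 : 0 < q := Real.exp_pos _
  have hq1 : q < 1 := by
    rw [hq, Real.exp_lt_one_iff]
    linarith
  have h1 : ∀ j : ℕ, Real.exp (-(x * ((j + 1 : ℕ) : ℝ))) = q * q ^ j := by
    intro j
    rw [hq, ← Real.exp_nat_mul, ← Real.exp_add]
    congr 1
    push_cast
    ring
  rw [Finset.sum_congr rfl fun j _ => h1 j, ← Finset.mul_sum]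
  have h2 : (∑ j ∈ Finset.range N, q ^ j) * (q - 1) = q ^ N - 1 := geom_sum_mul q N
  have h3 : 0 < q ^ N := pow_pos hq0 N
  have h4 : (∑ j ∈ Finset.range N, q ^ j) * (1 - q) ≤ 1 := by nlinarith
  have h5 : q * (1 + x) ≤ 1 := by
    have h6 : 1 + x ≤ Real.exp x := by
      have := Real.add_one_le_exp x
      linarith
    have h7 : q * Real.exp x = 1 := by
      rw [hq, ← Real.exp_add]
      simp
    have h8 := mul_le_mul_of_nonneg_left h6 hq0.le
    linarith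
  rw [le_div_iff₀ hx]
  have h9 : 0 ≤ ∑ j ∈ Finset.range N, q ^ j := Finset.sum_nonneg fun j _ => by positivity
  have h10 : q * x ≤ 1 - q := by linarith
  calc q * (∑ j ∈ Finset.range N, q ^ j) * x = (∑ j ∈ Finset.range N, q ^ j) * (q * x) := by ring
    _ ≤ (∑ j ∈ Finset.range N, q ^ j) * (1 - q) := mul_le_mul_of_nonneg_left h10 h9
    _ ≤ 1 := h4

private theorem tw_sum {s : ℕ} {β Λ : ℝ} (hβ : 0 < β) (hΛ : 1 ≤ Λ) (N k : ℕ) (hk : 1 ≤ k) :
    ∑ j ∈ Finset.range (N + 1), tw s β Λ k j ≤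
      (if s ≤ k then 1 + 1 / (Λ * β * tri k) else 1 + 1 / (β * tri k)) := by
  have h0 : (0 : ℝ) < Λ := by linarith
  have ht : (0 : ℝ) < tri k := by
    have h1 := le_tri k
    have h2 : 0 < tri k := by omega
    exact_mod_cast h2
  have hx : 0 < β * tri k := mul_pos hβ ht
  rw [Finset.sum_range_succ']
  have e0 : tw s β Λ k 0 = 1 := by
    unfold tw
    simp
  have e1 : ∀ j : ℕ, tw s β Λ k (j + 1) =
      Real.exp (-(β * tri k * ((j + 1 : ℕ) : ℝ))) * (if s ≤ k then Λ⁻¹ else 1) := by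
    intro j
    unfold tw
    simp
  rw [e0, Finset.sum_congr rfl fun j _ => e1 j, ← Finset.sum_mul]
  have h3 := tw_geom hx N
  split_ifs with h
  · have h4 : 1 / (Λ * β * tri k) = 1 / (β * tri k) * Λ⁻¹ := by
      field_simp
    rw [h4]
    have h5 : 0 ≤ Λ⁻¹ := by positivity
    have h6 := mul_le_mul_of_nonneg_right h3 h5
    linarith
  · rw [mul_one]
    linarith

private theorem tw_mem {N : ℕ} {π : Multiset ℕ} (hπ : π ∈ sy N) {k : ℕ} (hk : k ∈ π) :
    k ∈ Finset.Icc 1 N := by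
  rw [Finset.mem_Icc]
  constructor
  · rcases Nat.eq_zero_or_pos k with h | h
    · exact absurd (h ▸ hk) (mem_sy.1 hπ).1
    · exact h
  · exact (le_tri k).trans (tri_le_of_mem hπ hk)

private theorem tw_total {N : ℕ} {π : Multiset ℕ} (hπ : π ∈ sy N) :
    ∑ k ∈ Finset.Icc 1 N, tri k * π.count k = N := by
  have h1 : (π.map tri).sum = N := (mem_sy.1 hπ).2
  rw [Finset.sum_multiset_map_count] at h1
  have h2 : ∑ m ∈ π.toFinset, π.count m • tri m = ∑ k ∈ Finset.Icc 1 N, π.count k • tri k := by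
    apply Finset.sum_subset
    · intro k hk
      exact tw_mem hπ (Multiset.mem_toFinset.1 hk)
    · intro k _ hk
      rw [Multiset.mem_toFinset] at hk
      rw [Multiset.count_eq_zero_of_notMem hk, zero_smul]
  rw [h2] at h1
  refine Eq.trans (Finset.sum_congr rfl fun k _ => ?_) h1
  rw [smul_eq_mul, mul_comm]

private theorem tw_low {N s : ℕ} {β Λ : ℝ} (hΛ : 1 ≤ Λ) {π : Multiset ℕ} (hπ : π ∈ sy N)
    (hs : (π.toFinset.filter fun k => s ≤ k).card < s) :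
    1 ≤ Real.exp (β * N) * Λ ^ s * ∏ k ∈ Finset.Icc 1 N, tw s β Λ k (π.count k) := by
  classical
  have h0 : (0 : ℝ) < Λ := by linarith
  have e1 : ∏ k ∈ Finset.Icc 1 N, tw s β Λ k (π.count k) =
      Real.exp (-(β * N)) *
        ∏ k ∈ Finset.Icc 1 N, (if s ≤ k ∧ π.count k ≠ 0 then Λ⁻¹ else (1 : ℝ)) := by
    unfold tw
    rw [Finset.prod_mul_distrib, ← Real.exp_sum]
    congr 2
    rw [Finset.sum_neg_distrib]
    congr 1
    have h1 := tw_total hπ
    have h2 : ((∑ k ∈ Finset.Icc 1 N, tri k * π.count k : ℕ) : ℝ) = (N : ℝ) := by rw [h1]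
    rw [← h2]
    push_cast
    rw [Finset.mul_sum]
    exact Finset.sum_congr rfl fun k _ => by ring
  have e2 : ∏ k ∈ Finset.Icc 1 N, (if s ≤ k ∧ π.count k ≠ 0 then Λ⁻¹ else (1 : ℝ)) =
      Λ⁻¹ ^ ((Finset.Icc 1 N).filter fun k => s ≤ k ∧ π.count k ≠ 0).card := by
    rw [Finset.prod_ite, Finset.prod_const, Finset.prod_const_one, mul_one]
  have h3 : ((Finset.Icc 1 N).filter fun k => s ≤ k ∧ π.count k ≠ 0).card ≤ s := by
    refine le_trans (Finset.card_le_card ?_) hs.le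
    intro k hk
    rw [Finset.mem_filter] at hk ⊢
    refine ⟨?_, hk.2.1⟩
    rw [Multiset.mem_toFinset]
    exact Multiset.count_ne_zero.1 hk.2.2
  have h4 : Λ⁻¹ ^ s ≤ Λ⁻¹ ^ ((Finset.Icc 1 N).filter fun k => s ≤ k ∧ π.count k ≠ 0).card :=
    pow_le_pow_of_le_one (by positivity) (inv_le_one_of_one_le₀ hΛ) h3
  rw [e1, e2]
  have h5 : Real.exp (β * N) * Real.exp (-(β * N)) = 1 := by
    rw [← Real.exp_add]
    simp
  have h6 : Λ ^ s * Λ⁻¹ ^ s = 1 := by
    rw [← mul_pow, mul_inv_cancel₀ h0.ne', one_pow]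
  have h7 : (0 : ℝ) ≤ Λ ^ s := by positivity
  calc (1 : ℝ) = (Real.exp (β * N) * Real.exp (-(β * N))) * (Λ ^ s * Λ⁻¹ ^ s) := by
        rw [h5, h6, mul_one]
    _ ≤ (Real.exp (β * N) * Real.exp (-(β * N))) *
        (Λ ^ s * Λ⁻¹ ^ ((Finset.Icc 1 N).filter fun k => s ≤ k ∧ π.count k ≠ 0).card) := by
        rw [h5, one_mul, one_mul]
        exact mul_le_mul_of_nonneg_left h4 h7
    _ = _ := by ring

/-- UX1 (Chernoff). `π ∈ sy N` is determined by `c k = π.count k ≤ N`, `1 ≤ k ≤ N`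
(`Fintype.piFinset` or functions `Fin N → Fin (N + 1)`, `k = i + 1`). Weight of `c`:
`∏ k, w k (c k)`, `w k 0 = 1`, `w k j = exp (-β * tri k * j) * (if s ≤ k then Λ⁻¹ else 1)` (`j ≥ 1`). For
`π` in the set the weight is at least `exp (-β * N) * (Λ ^ s)⁻¹`. The sum of the weights over all `c`
is the product over `k` of `∑ j ≤ N, w k j` (`Finset.prod_univ_sum`), and with `x = β * tri k`:
`∑ j ≤ N, exp (-x j) ≤ 1 / (1 - exp (-x)) ≤ 1 + 1 / x`. -/
theorem thin_weight {N s : ℕ} {β Λ : ℝ} (hβ : 0 < β) (hΛ : 1 ≤ Λ) :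
    ((((sy N).filter fun π => (π.toFinset.filter fun k => s ≤ k).card < s).card : ℕ) : ℝ) ≤
      Real.exp (β * N) * Λ ^ s *
        ∏ k ∈ Finset.Icc 1 N, (if s ≤ k then 1 + 1 / (Λ * β * tri k) else 1 + 1 / (β * tri k)) := by
  classical
  set S := (sy N).filter fun π => (π.toFinset.filter fun k => s ≤ k).card < s with hS
  set E : ℝ := Real.exp (β * N) * Λ ^ s with hE
  have h0 : (0 : ℝ) < Λ := by linarith
  have hE0 : 0 ≤ E := by positivity
  have hSm : ∀ π ∈ S, π ∈ sy N ∧ (π.toFinset.filter fun k => s ≤ k).card < s := by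
    intro π hπ
    rw [hS, Finset.mem_filter] at hπ
    exact hπ
  let F : Multiset ℕ → ((Finset.Icc 1 N : Finset ℕ) → ℕ) := fun π k => π.count (k : ℕ)
  let T : Finset ((Finset.Icc 1 N : Finset ℕ) → ℕ) :=
    Fintype.piFinset fun _ => Finset.range (N + 1)
  let W : ((Finset.Icc 1 N : Finset ℕ) → ℕ) → ℝ := fun x =>
    ∏ k : (Finset.Icc 1 N : Finset ℕ), tw s β Λ (k : ℕ) (x k)
  have hW0 : ∀ x, 0 ≤ W x := fun x => Finset.prod_nonneg fun k _ => tw_nonneg hΛ _ _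
  have hcoe : ∀ g : ℕ → ℝ, ∏ k : (Finset.Icc 1 N : Finset ℕ), g (k : ℕ) =
      ∏ k ∈ Finset.Icc 1 N, g k := fun g => Finset.prod_coe_sort (Finset.Icc 1 N) g
  have hWF : ∀ π ∈ S, 1 ≤ E * W (F π) := by
    intro π hπ
    obtain ⟨h1, h2⟩ := hSm π hπ
    have h3 : W (F π) = ∏ k ∈ Finset.Icc 1 N, tw s β Λ k (π.count k) :=
      hcoe fun k => tw s β Λ k (π.count k)
    rw [h3]
    exact tw_low hΛ h1 h2
  have hinj : Set.InjOn F (S : Set (Multiset ℕ)) := by
    intro π hπ π' hπ' h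
    have h1 := (hSm π (Finset.mem_coe.1 hπ)).1
    have h2 := (hSm π' (Finset.mem_coe.1 hπ')).1
    refine Multiset.ext.2 fun k => ?_
    by_cases hk : k ∈ Finset.Icc 1 N
    · exact congrFun h ⟨k, hk⟩
    · rw [Multiset.count_eq_zero_of_notMem fun h3 => hk (tw_mem h1 h3),
        Multiset.count_eq_zero_of_notMem fun h3 => hk (tw_mem h2 h3)]
  have hmaps : S.image F ⊆ T := by
    intro x hx
    obtain ⟨π, hπ, rfl⟩ := Finset.mem_image.1 hx
    have h1 := (hSm π hπ).1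
    refine Fintype.mem_piFinset.2 fun k => Finset.mem_range.2 ?_
    have h2 := count_le h1 (k : ℕ)
    have h3 := (Finset.mem_Icc.1 k.2).1
    have h4 := le_tri (k : ℕ)
    have h5 : π.count (k : ℕ) * 1 ≤ π.count (k : ℕ) * tri (k : ℕ) :=
      Nat.mul_le_mul_left _ (h3.trans h4)
    show π.count (k : ℕ) < N + 1
    omega
  calc ((S.card : ℕ) : ℝ) = ∑ π ∈ S, (1 : ℝ) := by simp
    _ ≤ ∑ π ∈ S, E * W (F π) := Finset.sum_le_sum hWF
    _ = ∑ x ∈ S.image F, E * W x := (Finset.sum_image (f := fun x => E * W x) hinj).symm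
    _ ≤ ∑ x ∈ T, E * W x :=
        Finset.sum_le_sum_of_subset_of_nonneg hmaps fun x _ _ => mul_nonneg hE0 (hW0 x)
    _ = E * ∑ x ∈ T, W x := by rw [Finset.mul_sum]
    _ = E * ∏ k : (Finset.Icc 1 N : Finset ℕ),
          ∑ j ∈ Finset.range (N + 1), tw s β Λ (k : ℕ) j := by
        rw [Finset.prod_univ_sum]
    _ = E * ∏ k ∈ Finset.Icc 1 N, ∑ j ∈ Finset.range (N + 1), tw s β Λ k j := by
        rw [hcoe fun k => ∑ j ∈ Finset.range (N + 1), tw s β Λ k j]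
    _ ≤ E * ∏ k ∈ Finset.Icc 1 N,
          (if s ≤ k then 1 + 1 / (Λ * β * tri k) else 1 + 1 / (β * tri k)) := by
        refine mul_le_mul_of_nonneg_left ?_ hE0
        refine Finset.prod_le_prod (fun k _ => Finset.sum_nonneg fun j _ => tw_nonneg hΛ _ _) ?_
        intro k hk
        exact tw_sum hβ hΛ N k (Finset.mem_Icc.1 hk).1

end Pool.Agent.Lib.MP_6b2d39_agUx
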