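import Pool.Agent.Lib.MP_6b2d39_agUx.ThinA

set_option autoImplicit false

namespace Pool.Agent.Lib.MP_6b2d39_agUx

open Pool.Agent.Lib.MP_6b2d39_agUm

private theorem prod_sq (x : ℝ) (n : ℕ) :
    ∏ k ∈ Finset.Ico 1 (n + 1), x / (k : ℝ) ^ 2 = x ^ n / ((n.factorial : ℕ) : ℝ) ^ 2 := by
  induction n with
  | zero => simp
  | succ n ih =>
    rw [Finset.prod_Ico_succ_top (by omega), ih, Nat.factorial_succ]
    have h1 : ((n.factorial : ℕ) : ℝ) ≠ 0 := by exact_mod_cast (Nat.factorial_pos n).ne'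
    have h2 : ((n + 1 : ℕ) : ℝ) ≠ 0 := by exact_mod_cast (Nat.succ_ne_zero n)
    rw [Nat.cast_mul, pow_succ x n, mul_pow]
    field_simp

private theorem sum_tel {s : ℕ} (n : ℕ) (h : s ≤ n) :
    ∑ k ∈ Finset.Ico s n, (1 / (k : ℝ) - 1 / ((k : ℝ) + 1)) = 1 / (s : ℝ) - 1 / (n : ℝ) := by
  induction n, h using Nat.le_induction with
  | base => simp
  | succ n hn ih =>
    rw [Finset.sum_Ico_succ_top hn, ih]
    push_cast
    ring

private theorem exp_five : 4 * Real.exp 5 ≤ 625 := by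
  have h1 : Real.exp 1 < 2.7182818286 := Real.exp_one_lt_d9
  have h2 : Real.exp 1 ^ 5 = Real.exp 5 := by
    have := Real.exp_one_pow 5
    exact_mod_cast this
  rw [← h2]
  have h3 : Real.exp 1 ^ 5 ≤ 2.7182818286 ^ 5 :=
    pow_le_pow_left₀ (Real.exp_pos 1).le h1.le 5
  have h4 : (4 : ℝ) * 2.7182818286 ^ 5 ≤ 625 := by norm_num
  linarith

private theorem tri_cast (k : ℕ) : 2 * (tri k : ℝ) = (k : ℝ) * ((k : ℝ) + 1) := by
  have := two_tri k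
  exact_mod_cast this

private theorem high {N s : ℕ} (hs : 1 ≤ s) (hsN : s ≤ N) {c : ℝ} (hc : c = 1 / (s : ℝ) ^ 2) :
    ∏ k ∈ Finset.Ico s (N + 1), (1 + 1 / (c * (tri k : ℝ))) ≤ Real.exp (2 * s) := by
  have hs0 : (0 : ℝ) < s := by exact_mod_cast hs
  have h1 : ∏ k ∈ Finset.Ico s (N + 1), (1 + 1 / (c * (tri k : ℝ))) ≤
      ∏ k ∈ Finset.Ico s (N + 1),
        Real.exp (2 * (s : ℝ) ^ 2 * (1 / (k : ℝ) - 1 / ((k : ℝ) + 1))) := by
    refine Finset.prod_le_prod (fun k hk => ?_) (fun k hk => ?_)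
    · have : 0 ≤ c * (tri k : ℝ) := by rw [hc]; positivity
      positivity
    · have hk' : s ≤ k := (Finset.mem_Ico.1 hk).1
      have hk0 : (0 : ℝ) < k := by exact_mod_cast (hs.trans hk')
      have ht := tri_cast k
      have ht0 : (0 : ℝ) < tri k := by nlinarith
      have e : 1 / (c * (tri k : ℝ)) = 2 * (s : ℝ) ^ 2 * (1 / (k : ℝ) - 1 / ((k : ℝ) + 1)) := by
        rw [hc]
        have h3 : (tri k : ℝ) = (k : ℝ) * ((k : ℝ) + 1) / 2 := by linarith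
        rw [h3]
        have h4 : (k : ℝ) + 1 ≠ 0 := by positivity
        field_simp
        ring
      rw [e, add_comm]
      exact Real.add_one_le_exp _
  refine h1.trans ?_
  rw [← Real.exp_sum, ← Finset.mul_sum, sum_tel (N + 1) (by omega)]
  refine Real.exp_le_exp.2 ?_
  have h5 : 2 * (s : ℝ) ^ 2 * (1 / (s : ℝ) - 1 / ((N + 1 : ℕ) : ℝ)) ≤
      2 * (s : ℝ) ^ 2 * (1 / (s : ℝ)) := by
    refine mul_le_mul_of_nonneg_left ?_ (by positivity)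
    have : (0 : ℝ) ≤ 1 / ((N + 1 : ℕ) : ℝ) := by positivity
    linarith
  refine h5.trans (le_of_eq ?_)
  field_simp

private theorem low {N s : ℕ} (hs : 1 ≤ s) (h : (s : ℝ) ^ 3 ≤ N) {β : ℝ} (hβ : β = (s : ℝ) / N) :
    ∏ k ∈ Finset.Ico 1 s, (1 + 1 / (β * (tri k : ℝ))) ≤
      (4 * (N : ℝ) / (s : ℝ) ^ 3) ^ s * Real.exp (2 * s) := by
  have hs0 : (0 : ℝ) < s := by exact_mod_cast hs
  have hN0 : (0 : ℝ) < N := lt_of_lt_of_le (by positivity) h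
  have h1 : ∏ k ∈ Finset.Ico 1 s, (1 + 1 / (β * (tri k : ℝ))) ≤
      ∏ k ∈ Finset.Ico 1 s, (4 * (N : ℝ) / s) / (k : ℝ) ^ 2 := by
    refine Finset.prod_le_prod (fun k hk => ?_) (fun k hk => ?_)
    · have : 0 ≤ β * (tri k : ℝ) := by rw [hβ]; positivity
      positivity
    · obtain ⟨hk1, hk2⟩ := Finset.mem_Ico.1 hk
      have hk0 : (0 : ℝ) < k := by exact_mod_cast hk1
      have hk1' : (1 : ℝ) ≤ k := by exact_mod_cast hk1
      have hks : (k : ℝ) + 1 ≤ s := by exact_mod_cast hk2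
      have ht := tri_cast k
      have h3 : (tri k : ℝ) = (k : ℝ) * ((k : ℝ) + 1) / 2 := by linarith
      have e : 1 / (β * (tri k : ℝ)) = 2 * (N : ℝ) / (s * ((k : ℝ) * ((k : ℝ) + 1))) := by
        rw [hβ, h3]
        have h4 : (k : ℝ) + 1 ≠ 0 := by positivity
        field_simp
      rw [e]
      have h6 : (k : ℝ) * ((k : ℝ) + 1) ≤ (s : ℝ) ^ 2 := by nlinarith
      have h7 : (s : ℝ) * ((k : ℝ) * ((k : ℝ) + 1)) ≤ 2 * N := by
        have : (s : ℝ) * ((k : ℝ) * ((k : ℝ) + 1)) ≤ s * s ^ 2 :=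
          mul_le_mul_of_nonneg_left h6 hs0.le
        nlinarith
      have h8 : (1 : ℝ) ≤ 2 * (N : ℝ) / (s * ((k : ℝ) * ((k : ℝ) + 1))) := by
        rw [one_le_div (by positivity)]
        exact h7
      have h9 : 2 * (N : ℝ) / (s * ((k : ℝ) * ((k : ℝ) + 1))) ≤ 2 * (N : ℝ) / (s * (k : ℝ) ^ 2) := by
        refine div_le_div_of_nonneg_left (by positivity) (by positivity) ?_
        refine mul_le_mul_of_nonneg_left ?_ hs0.le
        nlinarith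
      have h10 : 4 * (N : ℝ) / s / (k : ℝ) ^ 2 = 2 * (2 * (N : ℝ) / (s * (k : ℝ) ^ 2)) := by
        field_simp
        ring
      rw [h10]
      linarith
  have h2 : ∏ k ∈ Finset.Ico 1 s, (4 * (N : ℝ) / s) / (k : ℝ) ^ 2 ≤
      ∏ k ∈ Finset.Ico 1 (s + 1), (4 * (N : ℝ) / s) / (k : ℝ) ^ 2 := by
    rw [Finset.prod_Ico_succ_top hs]
    refine le_mul_of_one_le_right (Finset.prod_nonneg fun k _ => by positivity) ?_
    rw [div_div, one_le_div (by positivity)]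
    nlinarith
  refine h1.trans (h2.trans ?_)
  rw [prod_sq]
  have h3 := Real.pow_div_factorial_le_exp (s : ℝ) hs0.le s
  have hf : (0 : ℝ) < ((s.factorial : ℕ) : ℝ) := by exact_mod_cast Nat.factorial_pos s
  have h4 : ((s : ℝ) ^ s / ((s.factorial : ℕ) : ℝ)) ^ 2 ≤ Real.exp s ^ 2 :=
    pow_le_pow_left₀ (by positivity) h3 2
  have h5 : Real.exp (s : ℝ) ^ 2 = Real.exp (2 * s) := by
    rw [← Real.exp_nat_mul]
    norm_num
  rw [h5] at h4
  have h6 : (4 * (N : ℝ) / s) ^ s / ((s.factorial : ℕ) : ℝ) ^ 2 =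
      (4 * (N : ℝ) / (s : ℝ) ^ 3) ^ s * ((s : ℝ) ^ s / ((s.factorial : ℕ) : ℝ)) ^ 2 := by
    have e1 : (4 * (N : ℝ) / s) = (4 * (N : ℝ) / (s : ℝ) ^ 3) * (s : ℝ) ^ 2 := by
      field_simp
    rw [e1, mul_pow, div_pow, ← pow_mul, ← pow_mul, mul_comm 2 s]
    ring
  rw [h6]
  exact mul_le_mul_of_nonneg_left h4 (by positivity)

/-- UX2. `thin_weight` with `β = s / N`, `Λ = N / s ^ 3 ≥ 1`. `exp (β N) = exp s`. For `k < s`:
`β tri k ≤ 1`, so `1 + 1 / (β tri k) ≤ 2 / (β tri k) ≤ 4 N / (s k ^ 2)`, and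
`4 N / (s k ^ 2) ≥ 1` for `k ≤ s`: this part of the product is at most
`∏ k ∈ Icc 1 s, 4 N / (s k ^ 2) = (4 N / s) ^ s / (s !) ^ 2 ≤ (4 N / s ^ 3) ^ s exp (2 s)`
(`s ^ s / s ! ≤ exp s`, `Real.pow_div_factorial_le_exp`). For `k ≥ s`: `1 + y ≤ exp y`,
`∑ k ∈ Icc s N, 1 / (k (k + 1)) ≤ 1 / s`, so at most `exp (2 N / (Λ s ^ 2)) = exp (2 s)`. Together
`(4 exp 5) ^ s (N / s ^ 3) ^ (2 s)`, `4 exp 5 ≤ 625`. -/
theorem thin_x {N s : ℕ} (hs : 1 ≤ s) (h : s ^ 3 ≤ N) :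
    ((((sy N).filter fun π => (π.toFinset.filter fun k => s ≤ k).card < s).card : ℕ) : ℝ) ≤
      (25 * (N : ℝ) / (s : ℝ) ^ 3) ^ (2 * s) := by
  have hs0 : (0 : ℝ) < s := by exact_mod_cast hs
  have h' : (s : ℝ) ^ 3 ≤ N := by exact_mod_cast h
  have hN0 : (0 : ℝ) < N := lt_of_lt_of_le (by positivity) h'
  have hsN : s ≤ N := le_trans (Nat.le_self_pow (by norm_num) s) h
  have h0 := thin_weight (N := N) (s := s) (β := (s : ℝ) / N) (Λ := (N : ℝ) / (s : ℝ) ^ 3)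
    (by positivity) ((one_le_div (by positivity)).2 h')
  refine h0.trans ?_
  have e1 : (s : ℝ) / N * N = s := by field_simp
  have e2 : (N : ℝ) / (s : ℝ) ^ 3 * ((s : ℝ) / N) = 1 / (s : ℝ) ^ 2 := by field_simp
  rw [e1, Finset.prod_ite]
  have f1 : (Finset.Icc 1 N).filter (fun k => s ≤ k) = Finset.Ico s (N + 1) := by
    ext k
    simp only [Finset.mem_filter, Finset.mem_Icc, Finset.mem_Ico]
    omega
  have f2 : (Finset.Icc 1 N).filter (fun k => ¬ s ≤ k) = Finset.Ico 1 s := by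
    ext k
    simp only [Finset.mem_filter, Finset.mem_Icc, Finset.mem_Ico]
    omega
  rw [f1, f2]
  have h1 := high hs hsN e2
  have h2 := low hs h' (β := (s : ℝ) / N) rfl
  have p2 : 0 ≤ ∏ k ∈ Finset.Ico 1 s, (1 + 1 / ((s : ℝ) / N * (tri k : ℝ))) :=
    Finset.prod_nonneg fun k _ => by positivity
  have h3 := mul_le_mul h1 h2 p2 (Real.exp_pos _).le
  have p4 : 0 ≤ Real.exp (s : ℝ) * ((N : ℝ) / (s : ℝ) ^ 3) ^ s := by positivity
  refine (mul_le_mul_of_nonneg_left h3 p4).trans ?_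
  have h5 : (4 * Real.exp 5) ^ s ≤ (625 : ℝ) ^ s :=
    pow_le_pow_left₀ (by positivity) exp_five s
  have e5 : Real.exp 5 ^ s = Real.exp s * (Real.exp (2 * s) * Real.exp (2 * s)) := by
    rw [← Real.exp_nat_mul, ← Real.exp_add, ← Real.exp_add]
    congr 1
    ring
  have e6 : Real.exp (s : ℝ) * ((N : ℝ) / (s : ℝ) ^ 3) ^ s *
      (Real.exp (2 * s) * ((4 * (N : ℝ) / (s : ℝ) ^ 3) ^ s * Real.exp (2 * s))) =
      (4 * Real.exp 5) ^ s * ((N : ℝ) / (s : ℝ) ^ 3) ^ (2 * s) := by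
    have e7 : 4 * (N : ℝ) / (s : ℝ) ^ 3 = 4 * ((N : ℝ) / (s : ℝ) ^ 3) := by ring
    have e10 : ((N : ℝ) / (s : ℝ) ^ 3) ^ (2 * s) =
        ((N : ℝ) / (s : ℝ) ^ 3) ^ s * ((N : ℝ) / (s : ℝ) ^ 3) ^ s := by
      rw [two_mul s, pow_add]
    rw [e7, mul_pow, mul_pow, e5, e10]
    ring
  rw [e6]
  have e8 : (25 * (N : ℝ) / (s : ℝ) ^ 3) ^ (2 * s) =
      (625 : ℝ) ^ s * ((N : ℝ) / (s : ℝ) ^ 3) ^ (2 * s) := by
    have e9 : 25 * (N : ℝ) / (s : ℝ) ^ 3 = 25 * ((N : ℝ) / (s : ℝ) ^ 3) := by ring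
    rw [e9, mul_pow, pow_mul (25 : ℝ) 2 s]
    norm_num
  rw [e8]
  exact mul_le_mul_of_nonneg_right h5 (by positivity)

end Pool.Agent.Lib.MP_6b2d39_agUx
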